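import Mathlib

/-!
# Zero-one law for permutations of the coordinates of a product measure
-/

open MeasureTheory ProbabilityTheory Filter Topology Set ENNReal

namespace Pool.Agent.H426Z.RC

variable {ι Y : Type*} [MeasurableSpace Y] (ν : Measure Y) [IsProbabilityMeasure ν]

theorem mp_perm (e : ι ≃ ι) : MeasurePreserving (fun (c : ι → Y) i => c (e i))
    (Measure.infinitePi fun _ : ι => ν) (Measure.infinitePi fun _ : ι => ν) :=
  ⟨measurable_pi_lambda _ fun _ => measurable_pi_apply _,
    Measure.map_infinitePi_infinitePi_of_inj e.injective⟩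

theorem zero_one_perm {Γ : Type*} (σ : Γ → ι ≃ ι)
    (hσ : ∀ s : Finset ι, ∃ γ, Disjoint s (s.map (σ γ).toEmbedding)) {H : Set (ι → Y)}
    (hH : MeasurableSet H)
    (hinv : ∀ γ, (fun (c : ι → Y) i => c (σ γ i)) ⁻¹' H =ᵐ[Measure.infinitePi fun _ : ι => ν] H) :
    (∀ᵐ c ∂Measure.infinitePi fun _ : ι => ν, c ∈ H) ∨
      (∀ᵐ c ∂Measure.infinitePi fun _ : ι => ν, c ∉ H) := by
  classical
  set μ := Measure.infinitePi fun _ : ι => ν with hμ
  have key : ∀ ε > 0, |μ.real H - μ.real H ^ 2| ≤ 4 * ε := by
    intro ε hε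
    obtain ⟨C, hC, hCH⟩ := exists_measure_symmDiff_lt_of_generateFrom_isSetRing (μ := μ)
      (isSetRing_measurableCylinders (α := fun _ : ι => Y))
      ⟨{univ}, countable_singleton _, by simpa using univ_mem_measurableCylinders (fun _ : ι => Y), by simp⟩
      generateFrom_measurableCylinders.symm hH (ε := ENNReal.ofReal ε) (by simpa using hε)
    have hCm : MeasurableSet C := MeasurableSet.of_mem_measurableCylinders hC
    obtain ⟨s, S, hS, rfl⟩ := (mem_measurableCylinders _).1 hC
    obtain ⟨γ, hγ⟩ := hσ s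
    have hτ := mp_perm ν (σ γ)
    set τ := fun (c : ι → Y) i => c (σ γ i) with hτd
    have hind := (iIndepFun_infinitePi (P := fun _ : ι => ν) (X := fun _ ω => ω)
      (fun _ => measurable_id)).indepFun_finset s (s.map (σ γ).toEmbedding) hγ
      fun i => measurable_pi_apply i
    let ρ : ((s.map (σ γ).toEmbedding : Finset ι) → Y) → (s → Y) := fun x i =>
      x ⟨σ γ i, Finset.mem_map_of_mem _ i.2⟩
    have hρ : Measurable ρ := measurable_pi_lambda _ fun _ => measurable_pi_apply _
    have h1 := hind.measure_inter_preimage_eq_mul S (ρ ⁻¹' S) hS (hρ hS)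
    have h2 : μ (cylinder s S ∩ τ ⁻¹' cylinder s S) = μ (cylinder s S) * μ (cylinder s S) := by
      conv_rhs => enter [2]; rw [← hτ.measure_preimage hCm.nullMeasurableSet]
      exact h1
    have h3 : μ.real (cylinder s S ∩ τ ⁻¹' cylinder s S) = μ.real (cylinder s S) ^ 2 := by
      rw [measureReal_def, h2, ENNReal.toReal_mul, sq, measureReal_def]
    have h4 : μ.real (symmDiff (cylinder s S) H) ≤ ε :=
      ENNReal.toReal_le_of_le_ofReal hε.le hCH.le
    have h5 : |μ.real (cylinder s S) - μ.real H| ≤ ε :=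
      (abs_measureReal_sub_le_measureReal_symmDiff hCm.nullMeasurableSet
        hH.nullMeasurableSet).trans h4
    have h6 : μ.real (H ∩ τ ⁻¹' H) = μ.real H := by
      refine measureReal_congr ?_
      have := (ae_eq_refl (μ := μ) H).inter (hinv γ)
      simpa using this
    have h7 : |μ.real (cylinder s S ∩ τ ⁻¹' cylinder s S) - μ.real (H ∩ τ ⁻¹' H)| ≤ 2 * ε := by
      refine (abs_measureReal_sub_le_measureReal_symmDiff
        (hCm.inter (hτ.measurable hCm)).nullMeasurableSet
        (hH.inter (hτ.measurable hH)).nullMeasurableSet).trans ?_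
      have hsub : symmDiff (cylinder s S ∩ τ ⁻¹' cylinder s S) (H ∩ τ ⁻¹' H) ⊆
          symmDiff (cylinder s S) H ∪ τ ⁻¹' symmDiff (cylinder s S) H := by
        intro x
        simp only [Set.mem_symmDiff, mem_inter_iff, mem_preimage, mem_union]
        tauto
      refine (measureReal_mono hsub).trans ((measureReal_union_le _ _).trans ?_)
      have : μ.real (τ ⁻¹' symmDiff (cylinder s S) H) = μ.real (symmDiff (cylinder s S) H) := by
        rw [measureReal_def, measureReal_def,
          hτ.measure_preimage (hCm.symmDiff hH).nullMeasurableSet]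
      linarith
    rw [h3, h6] at h7
    have a0 : 0 ≤ μ.real H := measureReal_nonneg
    have a1 : μ.real H ≤ 1 := measureReal_le_one
    have b0 : 0 ≤ μ.real (cylinder s S) := measureReal_nonneg
    have b1 : μ.real (cylinder s S) ≤ 1 := measureReal_le_one
    rw [abs_le] at h5 h7 ⊢
    constructor <;> nlinarith
  have h0 : μ.real H - μ.real H ^ 2 = 0 := by
    rw [← abs_nonpos_iff]
    refine le_of_forall_pos_le_add fun ε hε => ?_
    have := key (ε / 4) (by positivity)
    linarith
  have h1 : μ.real H * (1 - μ.real H) = 0 := by linarith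
  rcases mul_eq_zero.1 h1 with h | h
  · right
    exact measure_eq_zero_iff_ae_notMem.1 ((measureReal_eq_zero_iff).1 h)
  · left
    have : μ.real Hᶜ = 0 := by rw [probReal_compl_eq_one_sub hH]; exact h
    exact (measureReal_eq_zero_iff).1 this

theorem const_of_perm {Γ : Type*} (σ : Γ → ι ≃ ι)
    (hσ : ∀ s : Finset ι, ∃ γ, Disjoint s (s.map (σ γ).toEmbedding)) {g : (ι → Y) → ℝ}
    (hg : Measurable g)
    (hinv : ∀ γ, ∀ᵐ c ∂Measure.infinitePi fun _ : ι => ν, g (fun i => c (σ γ i)) = g c) :
    ∃ k, ∀ᵐ c ∂Measure.infinitePi fun _ : ι => ν, g c = k := by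
  obtain ⟨k, hk⟩ := exists_eventuallyEq_const_of_forall_separating
    (l := ae (Measure.infinitePi fun _ : ι => ν)) (f := g) MeasurableSet fun U hU =>
      zero_one_perm ν σ hσ (hg hU) fun γ => by
        filter_upwards [hinv γ] with c hc
        change (g _ ∈ U) = (g c ∈ U)
        rw [hc]
  exact ⟨k, hk⟩

end Pool.Agent.H426Z.RC
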