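import Mathlib

/-!
# Random walks among random conductances: definitions
-/

open MeasureTheory Filter Topology ENNReal

namespace Pool.Agent.H426Z.RC

variable {V : Type}

open Classical in
/-- The conductance between `x` and `y`: the value of `c` on the edge `xy`, and `0` if `x` and `y`
are not adjacent. -/
noncomputable def cond (G : SimpleGraph V) (c : G.edgeSet → ℝ) (x y : V) : ℝ :=
  if h : G.Adj x y then c ⟨s(x, y), h⟩ else 0

/-- The transition probability from `x` to `y`. -/
noncomputable def trans (G : SimpleGraph V) (c : G.edgeSet → ℝ) (x y : V) : ℝ :=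
  cond G c x y / ∑ᶠ z, cond G c x z

/-- `P` is the law of the random walk with conductances `c` started at `o`. -/
def IsWalkLaw [MeasurableSpace V] (G : SimpleGraph V) (c : G.edgeSet → ℝ) (o : V)
    (P : Measure (ℕ → V)) : Prop :=
  IsProbabilityMeasure P ∧ ∀ (n : ℕ) (w : ℕ → V), w 0 = o →
    P {X | ∀ i ≤ n, X i = w i} =
      ENNReal.ofReal (∏ i ∈ Finset.range n, trans G c (w i) (w (i + 1)))

/-- With root law `μ` and i.i.d. conductances of law `ν`, almost surely the walk has speed `v`. -/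
def HasSpeed [MeasurableSpace V] (G : SimpleGraph V) (μ : Measure V) (ν : Measure ℝ) (v : ℝ) :
    Prop :=
  ∀ᵐ o ∂μ, ∀ᵐ c ∂(Measure.infinitePi fun _ : G.edgeSet => ν),
    (∃ P, IsWalkLaw G c o P) ∧ ∀ P, IsWalkLaw G c o P →
      ∀ᵐ X ∂P, Tendsto (fun n : ℕ => (G.dist (X 0) (X n) : ℝ) / n) atTop (𝓝 v)

/-- The mass-transport principle for the graph `G` with a random root of law `μ`. -/
def MassTransport [MeasurableSpace V] (G : SimpleGraph V) (μ : Measure V) : Prop :=
  ∀ f : V → V → ℝ≥0∞, (∀ (φ : G ≃g G) (x y : V), f (φ x) (φ y) = f x y) →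
    ∫⁻ o, ∑' x, f o x ∂μ = ∫⁻ o, ∑' x, f x o ∂μ

end Pool.Agent.H426Z.RC
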