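import Mathlib
import Pool.Agent.H426Z.RC.Defs

/-!
# Graphs with a free action with finitely many orbits: conductances and transition probabilities
-/

open MeasureTheory Filter Topology ENNReal Set

namespace Pool.Agent.H426Z.RC

theorem walkLaw_unique {V : Type} [Countable V] [MeasurableSpace V] [DiscreteMeasurableSpace V]
    {G : SimpleGraph V} {c : G.edgeSet → ℝ} {o : V} {P P' : Measure (ℕ → V)}
    (h : IsWalkLaw G c o P) (h' : IsWalkLaw G c o P') : P = P' := by
  haveI := h.1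
  haveI := h'.1
  have hcyl : ∀ {P : Measure (ℕ → V)}, IsWalkLaw G c o P → ∀ (n : ℕ) (w : ℕ → V), w 0 ≠ o →
      P {X | ∀ i ≤ n, X i = w i} = 0 := by
    intro P h n w hw
    haveI := h.1
    have h1 := h.2 0 (fun _ => o) rfl
    simp only [Finset.range_zero, Finset.prod_empty, ENNReal.ofReal_one, nonpos_iff_eq_zero,
      forall_eq] at h1
    have hm : MeasurableSet {X : ℕ → V | X 0 = o} :=
      (measurable_pi_apply (X := fun _ : ℕ => V) 0) (measurableSet_singleton o)
    refine measure_mono_null (t := {X : ℕ → V | X 0 = o}ᶜ) ?_ ((prob_compl_eq_zero_iff hm).2 h1)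
    intro X hX hX'
    exact hw ((hX 0 (Nat.zero_le _)).symm.trans hX')
  have hres : ∀ n : ℕ, P.map (fun X (i : Fin (n + 1)) => X i) =
      P'.map (fun X (i : Fin (n + 1)) => X i) := by
    intro n
    have hm : Measurable fun (X : ℕ → V) (i : Fin (n + 1)) => X i :=
      measurable_pi_lambda _ fun _ => measurable_pi_apply _
    refine Measure.ext_of_singleton fun w => ?_
    rw [Measure.map_apply hm (measurableSet_singleton w),
      Measure.map_apply hm (measurableSet_singleton w)]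
    have e : (fun (X : ℕ → V) (i : Fin (n + 1)) => X i) ⁻¹' {w} =
        {X | ∀ i ≤ n, X i = (fun j => if hj : j < n + 1 then w ⟨j, hj⟩ else o) i} := by
      ext X
      simp only [mem_preimage, mem_singleton_iff, Set.mem_ofPred_eq, funext_iff]
      constructor
      · intro h i hi
        rw [dif_pos (Nat.lt_succ_of_le hi)]
        exact h ⟨i, Nat.lt_succ_of_le hi⟩
      · intro h i
        have := h i (Nat.le_of_lt_succ i.2)
        rwa [dif_pos i.2] at this
    rw [e]
    by_cases hw : (fun j => if hj : j < n + 1 then w ⟨j, hj⟩ else o) 0 = o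
    · rw [h.2 n _ hw, h'.2 n _ hw]
    · rw [hcyl h n _ hw, hcyl h' n _ hw]
  refine ext_of_generate_finite _ generateFrom_measurableCylinders.symm
    isPiSystem_measurableCylinders ?_ (by simp)
  intro C hC
  obtain ⟨s, S, hS, rfl⟩ := (mem_measurableCylinders _).1 hC
  have hm : Measurable fun (X : ℕ → V) (i : Fin (s.sup id + 1)) => X i :=
    measurable_pi_lambda _ fun _ => measurable_pi_apply _
  have e : cylinder s S = (fun (X : ℕ → V) (i : Fin (s.sup id + 1)) => X i) ⁻¹'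
      {w | (fun j : s => w ⟨j, Nat.lt_succ_of_le (Finset.le_sup (f := id) j.2)⟩) ∈ S} := rfl
  rw [e, ← Measure.map_apply hm MeasurableSet.of_discrete,
    ← Measure.map_apply hm MeasurableSet.of_discrete, hres]

section basic

variable {V : Type} {G : SimpleGraph V}

theorem cond_symm (c : G.edgeSet → ℝ) (x y : V) : cond G c x y = cond G c y x := by
  unfold cond
  by_cases h : G.Adj x y
  · rw [dif_pos h, dif_pos h.symm]
    congr 2
    exact Sym2.eq_swap
  · rw [dif_neg h, dif_neg fun h' => h h'.symm]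

theorem cond_adj (c : G.edgeSet → ℝ) {x y : V} (h : G.Adj x y) : cond G c x y = c ⟨s(x, y), h⟩ :=
  dif_pos h

theorem cond_nadj (c : G.edgeSet → ℝ) {x y : V} (h : ¬ G.Adj x y) : cond G c x y = 0 :=
  dif_neg h

theorem measurable_cond (x y : V) : Measurable fun c : G.edgeSet → ℝ => cond G c x y := by
  by_cases h : G.Adj x y
  · simp only [cond_adj _ h]
    exact measurable_pi_apply _
  · simp only [cond_nadj _ h]
    exact measurable_const

theorem cond_iso (φ : G ≃g G) (c : G.edgeSet → ℝ) (x y : V) :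
    cond G (fun e => c (φ.mapEdgeSet e)) x y = cond G c (φ x) (φ y) := by
  by_cases h : G.Adj x y
  · rw [cond_adj _ h, cond_adj _ (φ.map_adj_iff.2 h)]
    rfl
  · rw [cond_nadj _ h, cond_nadj _ fun h' => h (φ.map_adj_iff.1 h')]

theorem dist_iso_le (hc : G.Connected) (φ : G ≃g G) (x y : V) :
    G.dist (φ x) (φ y) ≤ G.dist x y := by
  obtain ⟨p, hp⟩ := hc.exists_walk_length_eq_dist x y
  have := SimpleGraph.dist_le (p.map φ.toHom)
  rwa [SimpleGraph.Walk.length_map, hp] at this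

theorem le_dist_of_lip (hc : G.Connected) (φ : V → ℝ) {L : ℝ}
    (h : ∀ x y, G.Adj x y → φ y ≤ φ x + L) (x y : V) : φ y ≤ φ x + L * G.dist x y := by
  obtain ⟨p, hp⟩ := hc.exists_walk_length_eq_dist x y
  rw [← hp]
  clear hp
  induction p with
  | nil => simp
  | cons hadj p ih =>
    have := h _ _ hadj
    simp only [SimpleGraph.Walk.length_cons]
    push_cast
    linarith

end basic

variable {Γ R : Type} [Group Γ]

/-- Translation. -/
def sh (γ : Γ) (v : Γ × R) : Γ × R := (γ * v.1, v.2)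

@[simp] theorem sh_sh (γ δ : Γ) (v : Γ × R) : sh γ (sh δ v) = sh (γ * δ) v := by
  simp [sh, mul_assoc]

@[simp] theorem sh_one (v : Γ × R) : sh 1 v = v := by simp [sh]

@[simp] theorem sh_base (v : Γ × R) : sh v.1 ((1 : Γ), v.2) = v := by simp [sh]

/-- Invariant, locally finite and connected graphs. -/
structure QT (G : SimpleGraph (Γ × R)) : Prop where
  inv : ∀ γ x y, G.Adj x y → G.Adj (sh γ x) (sh γ y)
  fin : ∀ x, (G.neighborSet x).Finite
  conn : G.Connected

variable {G : SimpleGraph (Γ × R)}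

/-- Translations are automorphisms. -/
def QT.iso (hG : QT G) (γ : Γ) : G ≃g G where
  toFun := sh γ
  invFun := sh γ⁻¹
  left_inv v := by simp
  right_inv v := by simp
  map_rel_iff' := by
    intro x y
    refine ⟨fun h => ?_, hG.inv γ x y⟩
    simpa using hG.inv γ⁻¹ _ _ h

@[simp] theorem QT.iso_apply (hG : QT G) (γ : Γ) (v : Γ × R) : hG.iso γ v = sh γ v := rfl

/-- The environment seen from `γ`. -/
def QT.tau (hG : QT G) (γ : Γ) (c : G.edgeSet → ℝ) : G.edgeSet → ℝ :=
  fun e => c ((hG.iso γ).mapEdgeSet e)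

theorem QT.tau_tau (hG : QT G) (γ δ : Γ) (c : G.edgeSet → ℝ) :
    hG.tau δ (hG.tau γ c) = hG.tau (γ * δ) c := by
  funext e
  obtain ⟨e, he⟩ := e
  induction e using Sym2.ind with
  | _ x y =>
    unfold QT.tau
    congr 1
    apply Subtype.ext
    change s(sh γ (sh δ x), sh γ (sh δ y)) = s(sh (γ * δ) x, sh (γ * δ) y)
    simp

theorem QT.tau_one (hG : QT G) (c : G.edgeSet → ℝ) : hG.tau 1 c = c := by
  funext e
  obtain ⟨e, he⟩ := e
  induction e using Sym2.ind with
  | _ x y =>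
    unfold QT.tau
    congr 1
    apply Subtype.ext
    change s(sh 1 x, sh 1 y) = s(x, y)
    simp

theorem QT.cond_tau (hG : QT G) (γ : Γ) (c : G.edgeSet → ℝ) (x y : Γ × R) :
    cond G (hG.tau γ c) x y = cond G c (sh γ x) (sh γ y) := cond_iso (hG.iso γ) c x y

/-- The neighbours. -/
noncomputable def QT.N (hG : QT G) (x : Γ × R) : Finset (Γ × R) := (hG.fin x).toFinset

@[simp] theorem QT.mem_N (hG : QT G) {x y : Γ × R} : y ∈ hG.N x ↔ G.Adj x y := by simp [QT.N]

/-- Total conductance at a vertex. -/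
noncomputable def QT.pi (hG : QT G) (c : G.edgeSet → ℝ) (x : Γ × R) : ℝ :=
  ∑ y ∈ hG.N x, cond G c x y

theorem QT.trans_eq (hG : QT G) (c : G.edgeSet → ℝ) (x y : Γ × R) :
    trans G c x y = cond G c x y / hG.pi c x := by
  unfold trans QT.pi
  rw [finsum_eq_sum_of_support_subset]
  intro z hz
  by_contra h
  exact hz (cond_nadj _ (by simpa using h))

theorem QT.sum_N_sh (hG : QT G) (γ : Γ) (x : Γ × R) (g : Γ × R → ℝ) :
    ∑ y ∈ hG.N (sh γ x), g y = ∑ y ∈ hG.N x, g (sh γ y) := by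
  symm
  refine Finset.sum_equiv (hG.iso γ).toEquiv (fun y => ?_) fun _ _ => rfl
  simp only [QT.mem_N]
  exact (hG.iso γ).map_adj_iff.symm

theorem QT.pi_tau (hG : QT G) (γ : Γ) (c : G.edgeSet → ℝ) (x : Γ × R) :
    hG.pi (hG.tau γ c) x = hG.pi c (sh γ x) := by
  unfold QT.pi
  rw [hG.sum_N_sh]
  simp only [hG.cond_tau]

theorem QT.trans_tau (hG : QT G) (γ : Γ) (c : G.edgeSet → ℝ) (x y : Γ × R) :
    trans G (hG.tau γ c) x y = trans G c (sh γ x) (sh γ y) := by
  rw [hG.trans_eq, hG.trans_eq, hG.pi_tau, hG.cond_tau]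

theorem QT.measurable_pi (hG : QT G) (x : Γ × R) :
    Measurable fun c : G.edgeSet → ℝ => hG.pi c x :=
  Finset.measurable_sum _ fun y _ => measurable_cond x y

theorem QT.measurable_trans (hG : QT G) (x y : Γ × R) :
    Measurable fun c : G.edgeSet → ℝ => trans G c x y := by
  simp only [hG.trans_eq]
  exact (measurable_cond x y).div (hG.measurable_pi x)

theorem QT.exists_adj [Infinite Γ] (hG : QT G) (x : Γ × R) : ∃ y, G.Adj x y := by
  obtain ⟨γ, hγ⟩ := exists_ne x.1
  obtain ⟨p⟩ := hG.conn.preconnected x (γ, x.2)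
  have hne : x ≠ (γ, x.2) := fun h => hγ (congrArg Prod.fst h).symm
  exact ⟨_, p.adj_snd (SimpleGraph.Walk.not_nil_of_ne hne)⟩

theorem QT.disj [Infinite Γ] (hG : QT G) (s : Finset G.edgeSet) :
    ∃ γ : Γ, Disjoint s (s.map (hG.iso γ).mapEdgeSet.toEmbedding) := by
  classical
  let t : Finset (Γ × R) := s.biUnion fun e => (e : Sym2 (Γ × R)).toFinset
  obtain ⟨γ, hγ⟩ := Infinite.exists_notMem_finset
    ((t ×ˢ t).image fun p => p.1.1 * p.2.1⁻¹)
  refine ⟨γ, Finset.disjoint_left.2 fun e he he' => hγ ?_⟩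
  obtain ⟨⟨e', h'⟩, he1, rfl⟩ := Finset.mem_map.1 he'
  induction e' using Sym2.ind with
  | _ x y =>
    refine Finset.mem_image.2 ⟨(sh γ x, x), Finset.mem_product.2 ⟨?_, ?_⟩, by simp [sh]⟩
    · refine Finset.mem_biUnion.2 ⟨_, he, ?_⟩
      change sh γ x ∈ s(sh γ x, sh γ y).toFinset
      simp
    · refine Finset.mem_biUnion.2 ⟨_, he1, ?_⟩
      simp

theorem tsum_swap (a : Γ → R → R → ℝ≥0∞) :
    ∑' r, ∑' y : Γ × R, a y.1⁻¹ r y.2 = ∑' s, ∑' y : Γ × R, a y.1 y.2 s := by
  simp only [ENNReal.tsum_prod']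
  calc ∑' r, ∑' g, ∑' s, a g⁻¹ r s = ∑' r, ∑' g, ∑' s, a g r s :=
        tsum_congr fun r => (Equiv.inv Γ).tsum_eq fun g => ∑' s, a g r s
    _ = ∑' g, ∑' r, ∑' s, a g r s := ENNReal.tsum_comm
    _ = ∑' g, ∑' s, ∑' r, a g r s := tsum_congr fun _ => ENNReal.tsum_comm
    _ = ∑' s, ∑' g, ∑' r, a g r s := ENNReal.tsum_comm

section pos

variable {ε K : ℝ} {c : G.edgeSet → ℝ}

omit [Group Γ] in
theorem cond_nonneg (hε : 0 < ε) (hc : ∀ e, c e ∈ Icc ε K) (x y : Γ × R) : 0 ≤ cond G c x y := by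
  by_cases h : G.Adj x y
  · rw [cond_adj _ h]; exact hε.le.trans (hc _).1
  · rw [cond_nadj _ h]

theorem QT.le_pi [Infinite Γ] (hG : QT G) (hε : 0 < ε) (hc : ∀ e, c e ∈ Icc ε K) (x : Γ × R) :
    ε ≤ hG.pi c x := by
  obtain ⟨y, hy⟩ := hG.exists_adj x
  refine le_trans ?_ (Finset.single_le_sum (fun z _ => cond_nonneg hε hc x z) (hG.mem_N.2 hy))
  rw [cond_adj _ hy]; exact (hc _).1

theorem QT.pi_le (hG : QT G) (hc : ∀ e, c e ∈ Icc ε K) (x : Γ × R) :
    hG.pi c x ≤ (hG.N x).card * K := by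
  refine (Finset.sum_le_sum (g := fun _ => K) fun y hy => ?_).trans (by simp)
  rw [cond_adj _ (hG.mem_N.1 hy)]; exact (hc _).2

theorem QT.trans_nonneg [Infinite Γ] (hG : QT G) (hε : 0 < ε) (hc : ∀ e, c e ∈ Icc ε K)
    (x y : Γ × R) : 0 ≤ trans G c x y := by
  rw [hG.trans_eq]
  exact div_nonneg (cond_nonneg hε hc x y) (hε.le.trans (hG.le_pi hε hc x))

theorem QT.sum_trans [Infinite Γ] (hG : QT G) (hε : 0 < ε) (hc : ∀ e, c e ∈ Icc ε K)
    (x : Γ × R) : ∑ y ∈ hG.N x, trans G c x y = 1 := by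
  simp only [hG.trans_eq]
  rw [← Finset.sum_div]
  exact div_self (hε.trans_le (hG.le_pi hε hc x)).ne'

theorem QT.trans_nadj (hG : QT G) (c : G.edgeSet → ℝ) {x y : Γ × R} (h : ¬ G.Adj x y) :
    trans G c x y = 0 := by
  rw [hG.trans_eq, cond_nadj _ h, zero_div]

theorem QT.trans_pos [Infinite Γ] (hG : QT G) (hε : 0 < ε) (hc : ∀ e, c e ∈ Icc ε K)
    {x y : Γ × R} (h : G.Adj x y) : 0 < trans G c x y := by
  rw [hG.trans_eq, cond_adj _ h]
  exact div_pos (hε.trans_le (hc _).1) (hε.trans_le (hG.le_pi hε hc x))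

end pos

end Pool.Agent.H426Z.RC
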