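import Mathlib

/-!
# Counting patterns in reduced words
-/

open FreeGroup

set_option linter.unusedSectionVars false

namespace Pool.Agent.H426Z.RC

variable {A B : Type} [DecidableEq A] [DecidableEq B]

/-- Letters. -/
abbrev Lt (A B : Type) := (A ⊕ B) × Bool

/-- The group element of a letter. -/
def lt (t : Lt A B) : FreeGroup (A ⊕ B) := mk [t]

/-- The inverse letter. -/
def iv (t : Lt A B) : Lt A B := (t.1, !t.2)

theorem lt_iv (t : Lt A B) : lt (iv t) = (lt t)⁻¹ := by
  simp [lt, iv, inv_mk, invRev]

theorem toWord_lt (t : Lt A B) : (lt t).toWord = [t] := rfl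

theorem lt_inj {s t : Lt A B} (h : lt s = lt t) : s = t := by
  have := congrArg toWord h
  simpa [toWord_lt] using this

theorem lt_ne_one (t : Lt A B) : lt t ≠ 1 := fun h => by
  have := congrArg toWord h
  simp [toWord_lt] at this

theorem mk_cons (t : Lt A B) (l : List (Lt A B)) : mk (t :: l) = lt t * mk l := by
  simp [lt, mul_mk]

theorem mul_cases (t : Lt A B) (g : FreeGroup (A ⊕ B)) :
    (lt t * g).toWord = t :: g.toWord ∨ g.toWord = iv t :: (lt t * g).toWord := by
  rw [toWord_mul, toWord_lt, List.singleton_append, reduce.cons, reduce_toWord]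
  cases g.toWord with
  | nil => left; rfl
  | cons hd tl =>
    by_cases h : t.1 = hd.1 ∧ t.2 = !hd.2
    · right
      simp only [if_pos h, List.cons.injEq, and_true]
      obtain ⟨h1, h2⟩ := h
      ext <;> simp [iv, h1, h2]
    · left
      simp only [if_neg h]

theorem push_of_ne [Nonempty A] (g : FreeGroup (A ⊕ B)) :
    ∃ t₀, ∀ t ≠ t₀, (lt t * g).toWord = t :: g.toWord := by
  cases h : g.toWord with
  | nil =>
    refine ⟨(Sum.inl (Classical.arbitrary A), true), fun t _ => ?_⟩
    rcases mul_cases t g with h1 | h1
    · rw [h1, h]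
    · rw [h] at h1; simp at h1
  | cons hd tl =>
    refine ⟨iv hd, fun t ht => ?_⟩
    rcases mul_cases t g with h1 | h1
    · rw [h1, h]
    · rw [h] at h1
      obtain ⟨h2, -⟩ := List.cons.inj h1
      exact absurd (by simp [h2, iv]) ht

theorem induct_lt {P : FreeGroup (A ⊕ B) → Prop} (h1 : P 1) (h2 : ∀ t g, P g → P (lt t * g))
    (g : FreeGroup (A ⊕ B)) : P g := by
  rw [← mk_toWord (x := g)]
  induction g.toWord with
  | nil => exact h1
  | cons t l ih => rw [mk_cons]; exact h2 _ _ ih

theorem lip_mk {F : FreeGroup (A ⊕ B) → ℝ} {c : ℝ} (h : ∀ t g, |F (lt t * g) - F g| ≤ c)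
    (u : List (Lt A B)) (g : FreeGroup (A ⊕ B)) : |F (mk u * g) - F g| ≤ c * u.length := by
  induction u with
  | nil => simp [← one_eq_mk]
  | cons t u ih =>
    rw [mk_cons, mul_assoc]
    have := h t (mk u * g)
    rw [abs_le] at this ih ⊢
    simp only [List.length_cons]
    push_cast
    constructor <;> linarith

theorem reduced_mul (u : List (Lt A B)) (hu : IsReduced u) (g : FreeGroup (A ⊕ B)) :
    ∃ u' u'' v' v'', u = u' ++ u'' ∧ g.toWord = v'' ++ v' ∧ (mk u * g).toWord = u' ++ v' := by
  induction u with
  | nil => exact ⟨[], [], g.toWord, [], rfl, rfl, by simp [← one_eq_mk]⟩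
  | cons t u ih =>
    obtain ⟨u', u'', v', v'', h1, h2, h3⟩ := ih (List.IsChain.tail hu)
    rw [mk_cons, mul_assoc]
    rcases mul_cases t (mk u * g) with h | h
    · exact ⟨t :: u', u'', v', v'', by simp [h1], h2, by simp [h, h3]⟩
    · rw [h3] at h
      cases u' with
      | nil =>
        refine ⟨[], t :: u, _, v'' ++ [iv t], rfl, ?_, rfl⟩
        rw [h2, List.append_assoc]
        exact congrArg _ h
      | cons s u' =>
        exfalso
        obtain ⟨h4, -⟩ := List.cons.inj h
        rw [h1, h4] at hu
        have := (isReduced_cons_cons.1 hu).1 rfl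
        simp [iv] at this

/-- Letters of the second kind. -/
def isB (t : Lt A B) : Bool := t.1.isRight

@[simp] theorem isB_iv (t : Lt A B) : isB (iv t) = isB t := rfl

/-- The word starts with a letter of the second kind. -/
def hb : List (Lt A B) → Bool
  | [] => false
  | t :: _ => isB t

@[simp] theorem hb_nil : hb ([] : List (Lt A B)) = false := rfl

@[simp] theorem hb_cons (t : Lt A B) (l : List (Lt A B)) : hb (t :: l) = isB t := rfl

/-- The number of consecutive pairs of letters of the second kind. -/
def ph : List (Lt A B) → ℕ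
  | [] => 0
  | t :: l => ph l + if isB t && hb l then 1 else 0

/-- The number of letters of the second kind minus the number of letters of the first kind. -/
def ps : List (Lt A B) → ℝ
  | [] => 0
  | t :: l => ps l + if isB t then 1 else -1

theorem ps_le (l : List (Lt A B)) : ps l ≤ ph l + if hb l then 1 else 0 := by
  induction l with
  | nil => simp [ps, ph]
  | cons t l ih =>
    simp only [ps, ph, hb_cons]
    by_cases h1 : isB t = true <;> by_cases h2 : hb l = true <;> simp [h1, h2] at ih ⊢ <;> linarith

theorem ph_append_le (u v : List (Lt A B)) : ph (u ++ v) ≤ ph u + ph v + 1 := by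
  induction u with
  | nil => simp [ph]
  | cons t u ih =>
    cases u with
    | nil => simp only [List.singleton_append, ph]; split_ifs <;> omega
    | cons s u =>
      rw [List.cons_append, ph, ph, List.cons_append, hb_cons, hb_cons, ← List.cons_append]
      omega

theorem ph_le_left (u v : List (Lt A B)) : ph u ≤ ph (u ++ v) := by
  induction u with
  | nil => simp [ph]
  | cons t u ih =>
    cases u with
    | nil => simp [ph]
    | cons s u =>
      have e : ph (t :: s :: u ++ v) = ph (s :: u ++ v) + if isB t && isB s then 1 else 0 := rfl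
      rw [e, ph, hb_cons]
      omega

theorem ph_le_right (u v : List (Lt A B)) : ph v ≤ ph (u ++ v) := by
  induction u with
  | nil => simp
  | cons t u ih => simp only [List.cons_append, ph]; omega

theorem ph_eq_zero (l : List (Lt A B)) :
    ph l = 0 ↔ l.IsChain fun s t => (isB s && isB t) = false := by
  induction l with
  | nil => simp [ph]
  | cons t l ih =>
    cases l with
    | nil => simp [ph]
    | cons s l =>
      rw [List.isChain_cons_cons, ← ih]
      conv_lhs => rw [ph]
      rw [hb_cons]
      by_cases h1 : isB t = true <;> by_cases h2 : isB s = true <;> simp [h1, h2]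

/-- The short elements without the pattern. -/
def Wset (A B : Type) [DecidableEq A] [DecidableEq B] (L : ℕ) : Set (FreeGroup (A ⊕ B)) :=
  {w | w.toWord.length ≤ L ∧ ph w.toWord = 0}

theorem Wset_finite [Finite A] [Finite B] (L : ℕ) : (Wset A B L).Finite :=
  ((List.finite_length_le (Lt A B) L).preimage toWord_injective.injOn).subset fun _ h => h.1

theorem Wset_inv {L : ℕ} {w : FreeGroup (A ⊕ B)} (h : w ∈ Wset A B L) : w⁻¹ ∈ Wset A B L := by
  refine ⟨by simpa [toWord_inv] using h.1, ?_⟩
  have := (ph_eq_zero _).1 h.2
  rw [ph_eq_zero, toWord_inv, invRev, List.isChain_reverse, List.isChain_map]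
  refine this.imp fun a b hab => ?_
  rw [Bool.and_comm]
  exact hab

theorem lt_mem {L : ℕ} (hL : 1 ≤ L) (t : Lt A B) : lt t ∈ Wset A B L :=
  ⟨by simpa [toWord_lt] using hL, by simp [toWord_lt, ph]⟩

theorem ph_mul_le {L : ℕ} {w : FreeGroup (A ⊕ B)} (h : w ∈ Wset A B L) (g : FreeGroup (A ⊕ B)) :
    ph (w * g).toWord ≤ ph g.toWord + 1 := by
  obtain ⟨u', u'', v', v'', h1, h2, h3⟩ := reduced_mul w.toWord isReduced_toWord g
  rw [mk_toWord] at h3
  have a := ph_append_le u' v'
  have b := ph_le_left u' u''
  have c := ph_le_right v'' v'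
  have d := h.2
  rw [← h1] at b
  rw [← h2] at c
  rw [h3]
  omega

theorem lip_W {F : FreeGroup (A ⊕ B) → ℝ} {c : ℝ} (hc : 0 ≤ c)
    (h : ∀ t g, |F (lt t * g) - F g| ≤ c) {L : ℕ} {w : FreeGroup (A ⊕ B)} (hw : w ∈ Wset A B L)
    (g : FreeGroup (A ⊕ B)) : |F (w * g) - F g| ≤ c * L := by
  have := lip_mk h w.toWord g
  rw [mk_toWord] at this
  exact this.trans (mul_le_mul_of_nonneg_left (by exact_mod_cast hw.1) hc)

theorem greedy {L : ℕ} (hL : 1 ≤ L) {D : FreeGroup (A ⊕ B) → ℕ} (h1 : D 1 = 0)
    (h2 : ∀ w ∈ Wset A B L, ∀ g, D (w * g) ≤ D g + 1) (g : FreeGroup (A ⊕ B)) :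
    L * D g ≤ L * ph g.toWord + g.toWord.length + L := by
  have hs : ∀ u l' : List (Lt A B), IsReduced (u ++ l') → ph u = 0 → u.length ≤ L →
      D (mk (u ++ l')) ≤ D (mk l') + 1 := by
    intro u l' hr h0 hu
    rw [← mul_mk]
    have : (mk u).toWord = u := by
      rw [toWord_mk, IsReduced.reduce_eq (List.IsChain.left_of_append hr)]
    exact h2 _ ⟨by rwa [this], by rwa [this]⟩ _
  have key : ∀ l : List (Lt A B), IsReduced l → ∃ u l', l = u ++ l' ∧ ph u = 0 ∧ u.length ≤ L ∧
      L * D (mk l') + u.length ≤ L * ph l + l.length := by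
    intro l
    induction l with
    | nil => intro _; exact ⟨[], [], rfl, rfl, by simp, by simp [← one_eq_mk, h1]⟩
    | cons s l ih =>
      intro hr
      have hr' : IsReduced l := List.IsChain.tail hr
      obtain ⟨u, l', e, h0, hu, h3⟩ := ih hr'
      have h4 := hs u l' (e ▸ hr') h0 hu
      rw [← e] at h4
      have h5 : ph l ≤ ph (s :: l) := ph_le_right [s] l
      have h6 := Nat.mul_le_mul_left L h4
      have h7 := Nat.mul_le_mul_left L h5
      by_cases ha : ph (s :: u) = 0
      · by_cases hb' : u.length < L
        · exact ⟨s :: u, l', by simp [e], ha, by simpa using hb', by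
            simp only [List.length_cons]; omega⟩
        · refine ⟨[s], l, rfl, by simp [ph], by simpa using hL, ?_⟩
          simp only [List.length_cons, List.length_nil]
          rw [mul_add] at h6
          omega
      · refine ⟨[s], l, rfl, by simp [ph], by simpa using hL, ?_⟩
        have h8 : ph (s :: l) = ph l + 1 := by
          cases u with
          | nil => simp [ph] at ha
          | cons t u =>
            rw [ph, h0] at ha
            rw [ph, e]
            simp only [hb_cons, List.cons_append] at ha ⊢
            split_ifs at ha ⊢ <;> simp_all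
        simp only [List.length_cons, List.length_nil]
        rw [h8, mul_add]
        rw [mul_add] at h6
        omega
  obtain ⟨u, l', e, h0, hu, h3⟩ := key _ (isReduced_toWord (x := g))
  have h4 := hs u l' (e ▸ isReduced_toWord) h0 hu
  rw [← e, mk_toWord] at h4
  have h6 := Nat.mul_le_mul_left L h4
  rw [mul_add] at h6
  omega

theorem lip_len (t : Lt A B) (g : FreeGroup (A ⊕ B)) :
    |((lt t * g).toWord.length : ℝ) - g.toWord.length| ≤ 1 := by
  rcases mul_cases t g with h | h <;> rw [h] <;> simp

theorem lip_ps (t : Lt A B) (g : FreeGroup (A ⊕ B)) :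
    |ps (lt t * g).toWord - ps g.toWord| ≤ 1 := by
  rcases mul_cases t g with h | h <;> rw [h] <;> simp only [ps] <;> split_ifs <;> simp

theorem lip_ph (t : Lt A B) (g : FreeGroup (A ⊕ B)) :
    |(ph (lt t * g).toWord : ℝ) - ph g.toWord| ≤ 1 := by
  rcases mul_cases t g with h | h <;> rw [h] <;> simp only [ph] <;> split_ifs <;> simp

variable [Fintype A] [Fintype B]

theorem sum_isB (a b : ℝ) : ∑ t : Lt A B, (if isB t then a else b) =
    2 * Fintype.card B * a + 2 * Fintype.card A * b := by
  simp only [Fintype.sum_prod_type, Fintype.sum_sum_type, isB]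
  simp
  ring

/-- The potential for simple random walk. -/
noncomputable def pot (θ : ℝ) (g : FreeGroup (A ⊕ B)) : ℝ :=
  ph g.toWord + if hb g.toWord then θ else 0

theorem pot_drift [Nonempty A] {θ : ℝ} (hθ : 0 ≤ θ)
    (h : θ * Fintype.card A = 2 * Fintype.card B) (g : FreeGroup (A ⊕ B)) :
    ∑ t : Lt A B, (if isB t then 1 else 1 / 2) * (pot θ (lt t * g) - pot θ g) ≤
      θ * (2 * Fintype.card B + 1) := by
  obtain ⟨t₀, h0⟩ := push_of_ne g
  cases hg : hb g.toWord with
  | true =>
    refine (Finset.sum_le_sum (g := fun t => if isB t then 1 else -θ / 2) fun t _ => ?_).trans ?_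
    · rcases mul_cases t g with h1 | h1
      · by_cases ht : isB t = true <;> simp [pot, h1, ph, ht, hg]
        linarith
      · have ht : isB t = true := by rw [h1] at hg; exact hg
        simp only [pot, hg, ht, if_true]
        rw [h1]
        simp only [ph]
        split_ifs <;> push_cast <;> linarith
    · rw [sum_isB]
      have : (0 : ℝ) ≤ Fintype.card B := Nat.cast_nonneg _
      nlinarith
  | false =>
    refine (Finset.sum_le_sum (g := fun t => (if isB t then θ else 0) + if t = t₀ then θ else 0)
      fun t _ => ?_).trans ?_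
    · rcases mul_cases t g with h1 | h1
      · by_cases ht : isB t = true <;> simp [pot, h1, ph, ht, hg] <;> split_ifs <;> linarith
      · have ht : isB t = false := by rw [h1] at hg; exact hg
        have ht0 : t = t₀ := by
          by_contra hne
          have h2 := congrArg List.length h1
          rw [h0 t hne] at h2
          simp at h2
          omega
        simp only [pot, hg, ht, if_pos ht0]
        rw [h1]
        simp only [ph, isB_iv, ht]
        split_ifs <;> simp_all <;> linarith
    · rw [Finset.sum_add_distrib, sum_isB]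
      simp
      linarith

end Pool.Agent.H426Z.RC
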