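import Mathlib
import Pool.Agent.H426Z.RC.Words
import Pool.Agent.H426Z.RC.W1

/-!
# The graph
-/

open FreeGroup Sum

set_option linter.unusedSectionVars false

namespace Pool.Agent.H426Z.RC

variable {A B K : Type} [DecidableEq A] [DecidableEq B]

/-- The group. -/
abbrev Fg (A B : Type) := FreeGroup (A ⊕ B)

/-- The vertex types. -/
abbrev Rr (A K : Type) := K ⊕ (A × K × K)

/-- A positive letter of the first kind. -/
def la (a : A) : Lt A B := (inl a, true)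

/-- Adjacency of main vertices. -/
def MM (k0 : K) (L : ℕ) (x : Fg A B) (i : K) (y : Fg A B) (j : K) : Prop :=
  (∃ t, isB t = true ∧ y = x * (lt t)⁻¹) ∨ (i = k0 ∧ j = k0 ∧ y ≠ x ∧ y⁻¹ * x ∈ Wset A B L)

/-- Adjacency of a main vertex and a midpoint. -/
def MD (x : Fg A B) (i : K) (y : Fg A B) (m : A × K × K) : Prop :=
  (x = y ∧ i = m.2.1) ∨ (x = y * (lt (la m.1))⁻¹ ∧ i = m.2.2)

/-- Adjacency. -/
def adj (k0 : K) (L : ℕ) : Fg A B × Rr A K → Fg A B × Rr A K → Prop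
  | (x, inl i), (y, inl j) => MM k0 L x i y j
  | (x, inl i), (y, inr m) => MD x i y m
  | (x, inr m), (y, inl i) => MD y i x m
  | (_, inr _), (_, inr _) => False

theorem MM_symm {k0 : K} {L : ℕ} {x y : Fg A B} {i j : K} (h : MM k0 L x i y j) :
    MM k0 L y j x i := by
  rcases h with ⟨t, ht, rfl⟩ | ⟨h1, h2, h3, h4⟩
  · exact Or.inl ⟨iv t, ht, by simp [lt_iv]⟩
  · exact Or.inr ⟨h2, h1, h3.symm, by simpa using Wset_inv h4⟩

/-- The graph. -/
def Gr (A B : Type) [DecidableEq A] [DecidableEq B] (k0 : K) (L : ℕ) :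
    SimpleGraph (Fg A B × Rr A K) where
  Adj := adj k0 L
  symm := ⟨by
    rintro ⟨x, i | m⟩ ⟨y, j | m'⟩ h
    · exact MM_symm h
    · exact h
    · exact h
    · exact h⟩
  loopless := ⟨by
    rintro ⟨x, i | m⟩ h
    · rcases h with ⟨t, -, h⟩ | ⟨-, -, h, -⟩
      · exact lt_ne_one t (by simpa using h)
      · exact h rfl
    · exact h⟩

variable {k0 : K} {L : ℕ}

/-- The neighbours of a main vertex, apart from shortcuts. -/
def nbr (x : Fg A B) (i : K) : Lt A B × K → Fg A B × Rr A K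
  | ((inr b, s), j) => (x * (lt (inr b, s))⁻¹, inl j)
  | ((inl a, true), j) => (x, inr (a, i, j))
  | ((inl a, false), j) => (x * (lt (inl a, false))⁻¹, inr (a, j, i))

theorem lt_false (a : A) : (lt (inl a, false) : Fg A B) = (lt (la a))⁻¹ := lt_iv (la a)

theorem adj_nbr (x : Fg A B) (i : K) (p : Lt A B × K) :
    (Gr A B k0 L).Adj (x, inl i) (nbr x i p) := by
  obtain ⟨⟨a | b, _ | _⟩, j⟩ := p
  · exact Or.inr ⟨by simp [lt_false], rfl⟩
  · exact Or.inl ⟨rfl, rfl⟩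
  · exact Or.inl ⟨_, rfl, rfl⟩
  · exact Or.inl ⟨_, rfl, rfl⟩

theorem adj_oth (x : Fg A B) (i : K) (p : Lt A B × K) (h : isB p.1 = false) :
    (Gr A B k0 L).Adj (nbr x i p) (x * (lt p.1)⁻¹, inl p.2) := by
  obtain ⟨⟨a | b, _ | _⟩, j⟩ := p
  · exact Or.inl ⟨rfl, rfl⟩
  · exact Or.inr ⟨rfl, rfl⟩
  · simp [isB] at h
  · simp [isB] at h

theorem nbr_inj (x : Fg A B) (i : K) : Function.Injective (nbr x i) := by
  have h0 : ∀ t : Lt A B, x * (lt t)⁻¹ ≠ x := fun t h => lt_ne_one t (by simpa using h)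
  have h1 : ∀ s t : Lt A B, x * (lt s)⁻¹ = x * (lt t)⁻¹ → s = t := fun s t h =>
    lt_inj (by simpa using h)
  rintro ⟨⟨a | b, _ | _⟩, j⟩ ⟨⟨a' | b', _ | _⟩, j'⟩ h <;>
    simp only [nbr, Prod.mk.injEq, inr.injEq, inl.injEq, reduceCtorEq, and_false] at h
  · simp [h.2.1, h.2.2.1]
  · exact absurd h.1 (h0 _)
  · exact absurd h.1.symm (h0 _)
  · simp [h.2.1, h.2.2.2]
  all_goals rw [h1 _ _ h.1, h.2]

theorem sh_nbr (γ x : Fg A B) (i : K) (p : Lt A B × K) : sh γ (nbr x i p) = nbr (γ * x) i p := by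
  obtain ⟨⟨a | b, _ | _⟩, j⟩ := p <;> simp [nbr, sh, mul_assoc]

theorem adj_main {x : Fg A B} {i : K} {v : Fg A B × Rr A K}
    (h : (Gr A B k0 L).Adj (x, inl i) v) :
    (∃ p, nbr x i p = v) ∨ ∃ w ∈ Wset A B L, (x * w⁻¹, inl k0) = v := by
  obtain ⟨y, j | ⟨a, i', j'⟩⟩ := v
  · rcases h with ⟨⟨a | b, s⟩, ht, rfl⟩ | ⟨-, rfl, -, h⟩
    · simp [isB] at ht
    · exact Or.inl ⟨((inr b, s), j), rfl⟩
    · exact Or.inr ⟨_, h, by simp⟩
  · rcases h with ⟨rfl, rfl⟩ | ⟨rfl, rfl⟩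
    · exact Or.inl ⟨((inl a, true), j'), rfl⟩
    · exact Or.inl ⟨((inl a, false), i'), by simp [nbr, lt_false]⟩

theorem adj_mid {x : Fg A B} {m : A × K × K} {v : Fg A B × Rr A K} :
    (Gr A B k0 L).Adj (x, inr m) v ↔
      v = (x, inl m.2.1) ∨ v = (x * (lt (la m.1))⁻¹, inl m.2.2) := by
  obtain ⟨y, j | m'⟩ := v
  · change MD y j x m ↔ _
    simp [MD]
  · change False ↔ _
    simp

theorem adj_short {w : Fg A B} (hw : w ∈ Wset A B L) (h1 : w ≠ 1) (x : Fg A B) :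
    (Gr A B k0 L).Adj (x, inl k0) (x * w⁻¹, inl k0) :=
  Or.inr ⟨rfl, rfl, fun h => h1 (by simpa using h), by simpa using hw⟩

theorem one_mem_W : (1 : Fg A B) ∈ Wset A B L := ⟨by simp, by simp [ph]⟩

theorem adj_W (hL : 1 ≤ L) {x y : Fg A B × Rr A K} (h : (Gr A B k0 L).Adj x y) :
    ∃ w ∈ Wset A B L, y.1⁻¹ = w * x.1⁻¹ := by
  obtain ⟨x, i | m⟩ := x <;> obtain ⟨y, j | m'⟩ := y
  · rcases h with ⟨t, -, rfl⟩ | ⟨-, -, -, h⟩
    · exact ⟨_, lt_mem hL t, by simp⟩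
    · exact ⟨_, h, by simp⟩
  · rcases h with ⟨rfl, -⟩ | ⟨rfl, -⟩
    · exact ⟨1, one_mem_W, by simp⟩
    · exact ⟨_, Wset_inv (lt_mem hL (la m'.1)), by simp⟩
  · rcases h with ⟨rfl, -⟩ | ⟨rfl, -⟩
    · exact ⟨1, one_mem_W, by simp⟩
    · exact ⟨_, lt_mem hL (la m.1), by simp⟩
  · exact h.elim

theorem adj_b (b : B) (x : Fg A B) (i j : K) :
    (Gr A B k0 L).Adj (x, inl i) (x * (lt (inr b, true))⁻¹, inl j) := Or.inl ⟨_, rfl, rfl⟩

theorem near [Nonempty B] (v : Fg A B × Rr A K) :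
    ∃ p : (Gr A B k0 L).Walk v (v.1, inl k0), p.length ≤ 3 := by
  obtain ⟨b⟩ := ‹Nonempty B›
  obtain ⟨x, i | m⟩ := v
  · exact ⟨.cons (adj_b b x i k0) (.cons (adj_b b x k0 k0).symm .nil), by simp⟩
  · exact ⟨.cons (adj_mid.2 (Or.inl rfl)) (.cons (adj_b b x _ k0)
      (.cons (adj_b b x k0 k0).symm .nil)), by simp⟩

variable [Fintype A] [Fintype B] [Fintype K]

theorem qt [Nonempty B] (hL : 1 ≤ L) : QT (Gr A B k0 L) where
  inv γ := by
    rintro ⟨x, i | m⟩ ⟨y, j | m'⟩ h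
    · rcases h with ⟨t, ht, rfl⟩ | ⟨h1, h2, h3, h4⟩
      · exact Or.inl ⟨t, ht, by simp [mul_assoc]⟩
      · exact Or.inr ⟨h1, h2, by simpa using h3, by simpa [mul_assoc] using h4⟩
    · rcases h with ⟨rfl, h⟩ | ⟨rfl, h⟩
      · exact Or.inl ⟨rfl, h⟩
      · exact Or.inr ⟨by simp [mul_assoc], h⟩
    · rcases h with ⟨rfl, h⟩ | ⟨rfl, h⟩
      · exact Or.inl ⟨rfl, h⟩
      · exact Or.inr ⟨by simp [mul_assoc], h⟩
    · exact h.elim
  fin := by
    rintro ⟨x, i | m⟩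
    · exact ((Set.finite_range (nbr x i)).union
        ((Wset_finite L).image fun w => (x * w⁻¹, inl k0))).subset fun v hv => adj_main hv
    · exact (Set.toFinite {(x, inl m.2.1), (x * (lt (la m.1))⁻¹, inl m.2.2)}).subset
        fun v hv => adj_mid.1 hv
  conn := by
    have h1 : ∀ g : Fg A B, (Gr A B k0 L).Reachable (1, inl k0) (g⁻¹, inl k0) := by
      refine induct_lt (by simp) fun t g h => h.trans ?_
      simpa using (adj_short (lt_mem hL t) (lt_ne_one t) g⁻¹).reachable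
    have h2 : ∀ v, (Gr A B k0 L).Reachable (1, inl k0) v := fun v => by
      obtain ⟨p, -⟩ := near (k0 := k0) (L := L) v
      exact (by simpa using h1 v.1⁻¹ : (Gr A B k0 L).Reachable (1, inl k0) (v.1, inl k0)).trans
        p.reachable.symm
    haveI : Nonempty (Fg A B × Rr A K) := ⟨(1, inl k0)⟩
    exact ⟨fun u v => (h2 u).symm.trans (h2 v)⟩

/-- The number of shortcuts. -/
noncomputable def om (A B : Type) [DecidableEq A] [DecidableEq B] [Fintype A] [Fintype B]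
    (L : ℕ) : ℕ := (Wset_finite (A := A) (B := B) L).toFinset.card

theorem sum_main (hG : QT (Gr A B k0 L)) (x : Fg A B) (i : K) (g : Fg A B × Rr A K → ℝ) {M : ℝ}
    (hM : 0 ≤ M) (h : ∀ w ∈ Wset A B L, |g (x * w⁻¹, inl k0)| ≤ M) :
    |∑ y ∈ hG.N (x, inl i), g y - ∑ p, g (nbr x i p)| ≤ om A B L * M := by
  classical
  have hsub : Finset.univ.image (nbr x i) ⊆ hG.N (x, inl i) := by
    intro v hv
    obtain ⟨p, -, rfl⟩ := Finset.mem_image.1 hv
    exact hG.mem_N.2 (adj_nbr x i p)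
  rw [← Finset.sum_sdiff hsub, Finset.sum_image fun p _ q _ h => nbr_inj x i h,
    add_sub_cancel_right]
  have hs : hG.N (x, inl i) \ Finset.univ.image (nbr x i) ⊆
      (Wset_finite (A := A) (B := B) L).toFinset.image fun w => (x * w⁻¹, inl k0) := by
    intro v hv
    obtain ⟨h1, h2⟩ := Finset.mem_sdiff.1 hv
    rcases adj_main (hG.mem_N.1 h1) with ⟨p, rfl⟩ | ⟨w, hw, rfl⟩
    · exact absurd (Finset.mem_image_of_mem _ (Finset.mem_univ p)) h2
    · exact Finset.mem_image_of_mem _ (by simpa using hw)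
  refine (Finset.abs_sum_le_sum_abs _ _).trans ((Finset.sum_le_sum (g := fun _ => M)
    fun v hv => ?_).trans ?_)
  · obtain ⟨w, hw, rfl⟩ := Finset.mem_image.1 (hs hv)
    exact h w (by simpa using hw)
  · rw [Finset.sum_const, nsmul_eq_mul]
    refine mul_le_mul_of_nonneg_right ?_ hM
    exact_mod_cast (Finset.card_le_card hs).trans Finset.card_image_le

theorem sum_mid (hG : QT (Gr A B k0 L)) (x : Fg A B) (m : A × K × K) (g : Fg A B × Rr A K → ℝ) :
    ∑ y ∈ hG.N (x, inr m), g y = g (x, inl m.2.1) + g (x * (lt (la m.1))⁻¹, inl m.2.2) := by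
  classical
  have : hG.N (x, inr m) = {(x, inl m.2.1), (x * (lt (la m.1))⁻¹, inl m.2.2)} := by
    ext v
    simp [adj_mid]
  rw [this, Finset.sum_pair]
  intro h
  exact lt_ne_one (la m.1 : Lt A B) (by simpa using (congrArg Prod.fst h))

theorem dist_upper [Nonempty B] (hL : 1 ≤ L) (r : Rr A K) (v : Fg A B × Rr A K) :
    ((Gr A B k0 L).dist (1, r) v : ℝ) ≤
      ph v.1⁻¹.toWord + (v.1⁻¹.toWord.length : ℝ) / L + 7 := by
  have hc := (qt (A := A) (B := B) (k0 := k0) hL).conn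
  have h1 := greedy hL (D := fun g : Fg A B => (Gr A B k0 L).dist (1, inl k0) (g⁻¹, inl k0))
    (by simp) (fun w hw g => by
      by_cases h : w = 1
      · simp [h]
      · have := hc.dist_triangle (u := (1, inl k0)) (v := (g⁻¹, inl k0)) (w := ((w * g)⁻¹, inl k0))
        rwa [mul_inv_rev, SimpleGraph.dist_eq_one_iff_adj.2 (adj_short hw h g⁻¹),
          ← mul_inv_rev] at this) v.1⁻¹
  obtain ⟨p, hp⟩ := near (A := A) (B := B) (k0 := k0) (L := L) (1, r)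
  obtain ⟨q, hq⟩ := near (k0 := k0) (L := L) v
  have h2 := (SimpleGraph.dist_le p).trans hp
  have h3 := (SimpleGraph.dist_le q).trans hq
  rw [SimpleGraph.dist_comm] at h3
  have h4 := hc.dist_triangle (u := (1, r)) (v := (1, inl k0)) (w := v)
  have h5 := hc.dist_triangle (u := (1, inl k0)) (v := (v.1, inl k0)) (w := v)
  simp only [inv_inv] at h1 h2
  have hL' : (0 : ℝ) < L := by exact_mod_cast hL
  have h6 : ((Gr A B k0 L).dist (1, inl k0) (v.1, inl k0) : ℝ) ≤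
      ph v.1⁻¹.toWord + (v.1⁻¹.toWord.length : ℝ) / L + 1 := by
    have h7 : (L : ℝ) * (Gr A B k0 L).dist (1, inl k0) (v.1, inl k0) ≤
      L * ph v.1⁻¹.toWord + v.1⁻¹.toWord.length + L := by exact_mod_cast h1
    rw [← sub_nonneg] at h7 ⊢
    have : (ph v.1⁻¹.toWord : ℝ) + (v.1⁻¹.toWord.length : ℝ) / L + 1 -
        (Gr A B k0 L).dist (1, inl k0) (v.1, inl k0) = (L * ph v.1⁻¹.toWord +
        v.1⁻¹.toWord.length + L - L * (Gr A B k0 L).dist (1, inl k0) (v.1, inl k0)) / L := by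
      field_simp
    rw [this]
    positivity
  have h8 : ((Gr A B k0 L).dist (1, r) v : ℝ) ≤
      (Gr A B k0 L).dist (1, inl k0) (v.1, inl k0) + 6 := by exact_mod_cast (by omega)
  linarith

theorem dist_lower [Nonempty B] (hL : 1 ≤ L) (r : Rr A K) (v : Fg A B × Rr A K) :
    (ph v.1⁻¹.toWord : ℝ) ≤ (Gr A B k0 L).dist (1, r) v := by
  have := le_dist_of_lip (qt (A := A) (B := B) (k0 := k0) hL).conn
    (fun v => (ph v.1⁻¹.toWord : ℝ)) (L := 1) (fun x y h => by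
      obtain ⟨w, hw, e⟩ := adj_W hL h
      simp only [e]
      exact_mod_cast ph_mul_le hw _) (1, r) v
  simpa [ph] using this

/-- Interpolation at the midpoints. -/
noncomputable def avg (F : Fg A B → ℝ) : Fg A B × Rr A K → ℝ
  | (x, inl _) => F x⁻¹
  | (x, inr m) => (F x⁻¹ + F (lt (la m.1) * x⁻¹)) / 2

theorem avg_near {F : Fg A B → ℝ} {c : ℝ} (hc : 0 ≤ c) (h : ∀ t g, |F (lt t * g) - F g| ≤ c)
    (v : Fg A B × Rr A K) : |avg F v - F v.1⁻¹| ≤ c := by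
  obtain ⟨x, i | m⟩ := v
  · simpa [avg] using hc
  · have := h (la m.1) x⁻¹
    simp only [avg]
    rw [abs_le] at this ⊢
    constructor <;> linarith

theorem avg_lip (hL : 1 ≤ L) {F : Fg A B → ℝ} {c : ℝ} (hc : 0 ≤ c)
    (h : ∀ t g, |F (lt t * g) - F g| ≤ c) {x y : Fg A B × Rr A K} (hxy : (Gr A B k0 L).Adj x y) :
    |avg F y - avg F x| ≤ c * (L + 2) := by
  obtain ⟨w, hw, e⟩ := adj_W hL hxy
  have h1 := avg_near hc h x
  have h2 := avg_near hc h y
  have h3 := lip_W hc h hw x.1⁻¹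
  rw [← e] at h3
  rw [abs_le] at h1 h2 h3 ⊢
  constructor <;> linarith

theorem avg_nbr (F : Fg A B → ℝ) (x : Fg A B) (i : K) (p : Lt A B × K) :
    avg F (nbr x i p) - F x⁻¹ = (if isB p.1 then 1 else 1 / 2) * (F (lt p.1 * x⁻¹) - F x⁻¹) := by
  obtain ⟨⟨a | b, _ | _⟩, j⟩ := p <;> simp [avg, nbr, isB, lt_false, la] <;> ring

end Pool.Agent.H426Z.RC
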