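import Mathlib
import Pool.Agent.H408Z.NUH.Birk

/-!
# Kingman's subadditive ergodic theorem for bounded increments and an ergodic map
-/

open MeasureTheory Filter Topology Set

namespace Pool.Agent.H426Z.RC

open Pool.Agent.H408Z.NUH

variable {X : Type*} [MeasurableSpace X] {μ : Measure X} [IsFiniteMeasure μ] {T : X → X}

omit [MeasurableSpace X] in
theorem king_comb {f : ℕ → X → ℝ} (hle : ∀ n x, f n x ≤ n)
    (hsub : ∀ n k x, f (n + k) x ≤ f n x + f k (T^[n] x)) {b : ℝ} (hb : 0 ≤ b) (M : ℕ) :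
    ∀ n x, f n x ≤ b * n + birkhoffSum T
      (Set.indicator {x | ∀ k, 1 ≤ k → k ≤ M → b * k < f k x} fun _ => (1 : ℝ)) n x + M := by
  intro n
  induction n using Nat.strong_induction_on with
  | _ n ih =>
    intro x
    have hnn : ∀ m y, 0 ≤ birkhoffSum T
        (Set.indicator {x | ∀ k, 1 ≤ k → k ≤ M → b * k < f k x} fun _ => (1 : ℝ)) m y := by
      intro m y
      exact Finset.sum_nonneg fun i _ => Set.indicator_nonneg (fun _ _ => zero_le_one) _
    have hM : (0 : ℝ) ≤ M := Nat.cast_nonneg M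
    rcases Nat.eq_zero_or_pos n with rfl | hn
    · have := hle 0 x
      simp only [Nat.cast_zero, mul_zero, birkhoffSum_zero] at this ⊢
      linarith
    by_cases hx : x ∈ {x | ∀ k, 1 ≤ k → k ≤ M → b * k < f k x}
    · obtain ⟨m, rfl⟩ : ∃ m, n = 1 + m := ⟨n - 1, by omega⟩
      have h1 := hsub 1 m x
      have h2 := ih m (by omega) (T^[1] x)
      have h3 := hle 1 x
      rw [birkhoffSum_add, birkhoffSum_one, Set.indicator_of_mem hx]
      push_cast at h3 ⊢
      nlinarith
    · simp only [Set.mem_ofPred_eq, not_forall, not_lt] at hx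
      obtain ⟨k, hk1, hkM, hk⟩ := hx
      by_cases hkn : k ≤ n
      · obtain ⟨m, rfl⟩ : ∃ m, n = k + m := ⟨n - k, by omega⟩
        have h1 := hsub k m x
        have h2 := ih m (by omega) (T^[k] x)
        have h3 := hnn k x
        rw [birkhoffSum_add]
        push_cast
        nlinarith
      · have h1 := hle n x
        have h2 : (n : ℝ) ≤ M := by exact_mod_cast (by omega : n ≤ M)
        have h3 := hnn n x
        have h4 : 0 ≤ b * n := mul_nonneg hb (Nat.cast_nonneg n)
        linarith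

theorem meas_freq {f : ℕ → X → ℝ} (hm : ∀ n, Measurable (f n)) (t : ℝ) :
    MeasurableSet {x | ∃ᶠ n : ℕ in atTop, f n x ≤ t * n} := by
  have : {x | ∃ᶠ n : ℕ in atTop, f n x ≤ t * n} =
      ⋂ N : ℕ, ⋃ n : ℕ, ⋃ _ : n ≥ N, {x | f n x ≤ t * n} := by
    ext x
    simp [frequently_atTop]
  rw [this]
  exact MeasurableSet.iInter fun N => MeasurableSet.iUnion fun n => MeasurableSet.iUnion fun _ =>
    measurableSet_le (hm n) measurable_const

theorem kingman (hT : Ergodic T μ) {f : ℕ → X → ℝ} (hm : ∀ n, Measurable (f n))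
    (h0 : ∀ n x, 0 ≤ f n x) (hle : ∀ n x, f n x ≤ n)
    (hsub : ∀ n k x, f (n + k) x ≤ f n x + f k (T^[n] x)) :
    ∃ v : ℝ, ∀ᵐ x ∂μ, Tendsto (fun n : ℕ => f n x / n) atTop (𝓝 v) := by
  rcases eq_zero_or_neZero μ with rfl | hμ
  · exact ⟨0, by simp⟩
  set S : Set ℝ := {t | ∀ᵐ x ∂μ, ∃ᶠ n : ℕ in atTop, f n x ≤ t * n} with hS
  have hSm : ∀ t, t ∈ S ↔ ∀ᵐ x ∂μ, ∃ᶠ n : ℕ in atTop, f n x ≤ t * n := fun t => Iff.rfl
  have hS1 : (1 : ℝ) ∈ S := (hSm 1).2 <| Eventually.of_forall fun x =>
    Frequently.of_forall fun n => by simpa using hle n x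
  have hS0 : ∀ t ∈ S, 0 ≤ t := by
    intro t ht
    obtain ⟨x, hx⟩ := ((hSm t).1 ht).exists
    obtain ⟨n, h1, h2⟩ := (hx.and_eventually (eventually_gt_atTop 0)).exists
    have h3 : (0 : ℝ) < n := by exact_mod_cast h2
    have := h0 n x
    by_contra hc
    push Not at hc
    nlinarith
  have hbdd : BddBelow S := ⟨0, hS0⟩
  set a := sInf S with ha
  have ha0 : 0 ≤ a := le_csInf ⟨1, hS1⟩ hS0
  have hup : ∀ ε > 0, a + ε ∈ S := by
    intro ε hε
    obtain ⟨t, ht, h⟩ := exists_lt_of_csInf_lt ⟨1, hS1⟩ (lt_add_of_pos_right a hε)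
    rw [hSm] at ht ⊢
    filter_upwards [ht] with x hx
    refine hx.mono fun n hn => hn.trans ?_
    gcongr
  have hlow : ∀ ε > 0, ∀ᵐ x ∂μ, ∀ᶠ n : ℕ in atTop, (a - ε) * n ≤ f n x := by
    intro ε hε
    set U : Set X := ⋂ j : ℕ, {x | ∃ᶠ n : ℕ in atTop, f n x ≤ (a - ε + 1 / ((j : ℝ) + 1)) * n}
      with hU
    have hUm : MeasurableSet U := MeasurableSet.iInter fun j => meas_freq hm _
    have hinv : T ⁻¹' U ⊆ U := by
      intro x hx
      simp only [hU, mem_preimage, mem_iInter, Set.mem_ofPred_eq] at hx ⊢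
      intro j
      have h1 := hx (j + 1)
      have hpos : 0 < 1 / ((j : ℝ) + 1) - 1 / (((j + 1 : ℕ) : ℝ) + 1) := by
        push_cast
        have : 1 / ((j : ℝ) + 1 + 1) < 1 / ((j : ℝ) + 1) :=
          one_div_lt_one_div_of_lt (by positivity) (by linarith)
        linarith
      set η := 1 / ((j : ℝ) + 1) - 1 / (((j + 1 : ℕ) : ℝ) + 1) with hη
      obtain ⟨N, hN⟩ := exists_nat_gt ((1 + |a - ε + 1 / ((j : ℝ) + 1)|) / η)
      rw [frequently_atTop] at h1 ⊢
      intro N'
      obtain ⟨n, hn, h2⟩ := h1 (max N N')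
      refine ⟨1 + n, by omega, ?_⟩
      have h3 := hsub 1 n x
      have h4 := hle 1 x
      rw [div_lt_iff₀ hpos] at hN
      have h5 : (N : ℝ) ≤ n := by exact_mod_cast (le_of_max_le_left hn)
      have h6 := neg_abs_le (a - ε + 1 / ((j : ℝ) + 1))
      have h7 : (N : ℝ) * η ≤ n * η := by gcongr
      simp only [Function.iterate_one] at h3
      have h8 : a - ε + 1 / (((j + 1 : ℕ) : ℝ) + 1) = a - ε + 1 / ((j : ℝ) + 1) - η := by
        rw [hη]; ring
      rw [h8] at h2
      push_cast at h4 ⊢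
      nlinarith
    rcases hT.ae_empty_or_univ_of_preimage_ae_le hUm.nullMeasurableSet hinv.eventuallyLE with h | h
    · have h' : ∀ᵐ x ∂μ, x ∉ U := by
        exact measure_eq_zero_iff_ae_notMem.1 (ae_eq_empty.1 h)
      filter_upwards [h'] with x hx
      simp only [hU, mem_iInter, Set.mem_ofPred_eq, not_forall, not_frequently, not_le] at hx
      obtain ⟨j, hj⟩ := hx
      filter_upwards [hj] with n hn
      refine le_trans ?_ hn.le
      gcongr
      have : (0 : ℝ) < 1 / ((j : ℝ) + 1) := by positivity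
      linarith
    · exfalso
      obtain ⟨j, hj⟩ := exists_nat_one_div_lt hε
      have : a - ε + 1 / ((j : ℝ) + 1) ∈ S := by
        rw [hSm]
        filter_upwards [(show ∀ᵐ x ∂μ, x ∈ U from ae_eq_univ.1 h)] with x hxU
        exact mem_iInter.1 hxU j
      have := csInf_le hbdd this
      linarith
  have hhigh : ∀ ε > 0, ∀ᵐ x ∂μ, ∀ᶠ n : ℕ in atTop, f n x ≤ (a + 3 * ε) * n := by
    intro ε hε
    set B : ℕ → Set X := fun M => {x | ∀ k, 1 ≤ k → k ≤ M → (a + ε) * k < f k x} with hB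
    have hBm : ∀ M, MeasurableSet (B M) := by
      intro M
      have : B M = ⋂ k : ℕ, ⋂ _ : 1 ≤ k, ⋂ _ : k ≤ M, {x | (a + ε) * k < f k x} := by
        ext x; simp [hB]
      rw [this]
      exact MeasurableSet.iInter fun k => MeasurableSet.iInter fun _ =>
        MeasurableSet.iInter fun _ => measurableSet_lt measurable_const (hm k)
    have hanti : Antitone B := fun M M' h x hx k h1 h2 => hx k h1 (h2.trans h)
    have hlim := tendsto_measure_iInter_atTop (μ := μ) (fun M => (hBm M).nullMeasurableSet) hanti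
      ⟨0, measure_ne_top _ _⟩
    have hnull : μ (⋂ M, B M) = 0 := by
      refine measure_eq_zero_iff_ae_notMem.2 ?_
      filter_upwards [(hSm _).1 (hup ε hε)] with x hx hx'
      obtain ⟨n, h1, h2⟩ := (hx.and_eventually (eventually_ge_atTop 1)).exists
      exact absurd (mem_iInter.1 hx' n n h2 le_rfl) (not_lt.2 h1)
    rw [hnull] at hlim
    have hlim' := (ENNReal.tendsto_toReal ENNReal.zero_ne_top).comp hlim
    have hpos : 0 < μ.real univ := by
      rw [measureReal_def]
      exact ENNReal.toReal_pos (by simpa using hμ.out) (measure_ne_top _ _)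
    obtain ⟨M, hM⟩ := (hlim'.eventually (gt_mem_nhds
      (show ENNReal.toReal 0 < ε * μ.real univ by simpa using mul_pos hε hpos))).exists
    set φ : X → ℝ := Set.indicator (B M) fun _ => (1 : ℝ) with hφ
    have hφm : Measurable φ := measurable_const.indicator (hBm M)
    have hψm : Measurable fun x => 1 * φ x + (-ε) := (hφm.const_mul 1).add_const _
    have hφb : ∀ x, |φ x| ≤ 1 := by
      intro x
      by_cases hx : x ∈ B M <;> simp [hφ, hx]
    have hψb : ∀ x, |1 * φ x + (-ε)| ≤ 1 + |ε| := fun x => (abs_add_le _ _).trans (by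
      rw [one_mul, abs_neg]; linarith [hφb x])
    have hUm := measurableSet_Unb hT.toMeasurePreserving.measurable hψm
    rcases hT.toPreErgodic.ae_empty_or_univ hUm (preimage_Unb _) with h | h
    · have h' : ∀ᵐ x ∂μ, x ∉ Unb T (fun x => 1 * φ x + (-ε)) := by
        exact measure_eq_zero_iff_ae_notMem.1 (ae_eq_empty.1 h)
      filter_upwards [h'] with x hx
      simp only [Unb, Set.mem_ofPred_eq, not_forall, not_exists, not_le] at hx
      obtain ⟨K, hK⟩ := hx
      obtain ⟨N, hN⟩ := exists_nat_gt (((K : ℝ) + M) / ε)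
      filter_upwards [eventually_ge_atTop N] with n hn
      have h1 := king_comb hle hsub (b := a + ε) (by linarith) M n x
      have h2 := hK n
      rw [bs_affine] at h2
      rw [div_lt_iff₀ hε] at hN
      have h5 : (N : ℝ) ≤ n := by exact_mod_cast hn
      have h7 : (N : ℝ) * ε ≤ n * ε := by gcongr
      change f n x ≤ (a + ε) * n + birkhoffSum T φ n x + M at h1
      nlinarith
    · exfalso
      have h1 := maximal' hT.toMeasurePreserving hψm hψb hUm (preimage_Unb _) subset_rfl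
      rw [setIntegral_congr_set h, Measure.restrict_univ,
        integral_add ((integrable_of_bdd hφm hφb _).const_mul 1) (integrable_const _),
        integral_const_mul, integral_const, hφ, integral_indicator (hBm M), setIntegral_const] at h1
      simp only [smul_eq_mul, mul_one, one_mul] at h1
      simp only [Function.comp_apply] at hM
      rw [← measureReal_def] at hM
      nlinarith
  refine ⟨a, ?_⟩
  have h1 : ∀ᵐ x ∂μ, ∀ j : ℕ, ∀ᶠ n : ℕ in atTop, (a - 1 / ((j : ℝ) + 1)) * n ≤ f n x :=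
    ae_all_iff.2 fun j => hlow _ (by positivity)
  have h2 : ∀ᵐ x ∂μ, ∀ j : ℕ, ∀ᶠ n : ℕ in atTop, f n x ≤ (a + 3 * (1 / ((j : ℝ) + 1))) * n :=
    ae_all_iff.2 fun j => hhigh _ (by positivity)
  filter_upwards [h1, h2] with x h1 h2
  rw [Metric.tendsto_atTop]
  intro ε hε
  obtain ⟨j, hj⟩ := exists_nat_one_div_lt (show 0 < ε / 4 by positivity)
  obtain ⟨N, hN⟩ := eventually_atTop.1 ((h1 j).and ((h2 j).and (eventually_gt_atTop 0)))
  refine ⟨N, fun n hn => ?_⟩
  obtain ⟨h3, h4, h5⟩ := hN n hn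
  have h6 : (0 : ℝ) < n := by exact_mod_cast h5
  rw [Real.dist_eq, abs_lt]
  have h7 : a - 1 / ((j : ℝ) + 1) ≤ f n x / n := by rwa [le_div_iff₀ h6]
  have h8 : f n x / n ≤ a + 3 * (1 / ((j : ℝ) + 1)) := by rwa [div_le_iff₀ h6]
  constructor <;> linarith

end Pool.Agent.H426Z.RC
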