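import Mathlib

/-!
# Skew products over a Bernoulli shift: invariance and ergodicity
-/

open MeasureTheory Filter Topology Set ENNReal

namespace Pool.Agent.H426Z.RC

variable {U : Type*} [MeasurableSpace U] (lam : Measure U) [IsProbabilityMeasure lam]

/-- The product measure on sequences. -/
noncomputable abbrev seqM : Measure (ℕ → U) := Measure.infinitePi fun _ : ℕ => lam

/-- The shift. -/
def tl (u : ℕ → U) : ℕ → U := fun n => u (n + 1)

/-- Prepending a term. -/
def cns (p : U × (ℕ → U)) : ℕ → U
  | 0 => p.1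
  | n + 1 => p.2 n

theorem measurable_tl : Measurable (tl : (ℕ → U) → ℕ → U) :=
  measurable_pi_lambda _ fun _ => measurable_pi_apply _

theorem measurable_cns : Measurable (cns : U × (ℕ → U) → ℕ → U) :=
  measurable_pi_lambda _ fun n => by
    cases n with
    | zero => exact measurable_fst
    | succ n => exact (measurable_pi_apply n).comp measurable_snd

theorem box_range (s : Finset ℕ) (t : ℕ → Set U) :
    ∃ (n : ℕ) (D : ℕ → Set U), ((∀ i, MeasurableSet (t i)) → ∀ i, MeasurableSet (D i)) ∧
      Set.pi (s : Set ℕ) t = {u | ∀ i < n, u i ∈ D i} ∧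
      ∏ i ∈ s, lam (t i) = ∏ i ∈ Finset.range n, lam (D i) := by
  classical
  refine ⟨s.sup id + 1, fun i => if i ∈ s then t i else univ, ?_, ?_, ?_⟩
  · intro h i
    by_cases hi : i ∈ s <;> simp [hi, h]
  · ext u
    simp only [Set.mem_pi, Finset.mem_coe, Set.mem_ofPred_eq]
    constructor
    · intro h i _
      by_cases hi : i ∈ s <;> simp [hi, h]
    · intro h i hi
      have := h i (Nat.lt_succ_of_le (Finset.le_sup (f := id) hi))
      simpa [hi] using this
  · rw [← Finset.prod_subset (s₁ := s) (s₂ := Finset.range (s.sup id + 1))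
      (fun i hi => Finset.mem_range.2 (Nat.lt_succ_of_le (Finset.le_sup (f := id) hi)))
      (fun i _ hi => by simp [hi])]
    exact Finset.prod_congr rfl fun i hi => by simp [hi]

theorem seqM_box (n : ℕ) (D : ℕ → Set U) (hD : ∀ i, MeasurableSet (D i)) :
    seqM lam {u | ∀ i < n, u i ∈ D i} = ∏ i ∈ Finset.range n, lam (D i) := by
  rw [← Measure.infinitePi_pi (fun _ : ℕ => lam) (s := Finset.range n) fun i _ => hD i]
  congr 1
  ext u
  simp

theorem meas_box (n : ℕ) (D : ℕ → Set U) (hD : ∀ i, MeasurableSet (D i)) :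
    MeasurableSet {u : ℕ → U | ∀ i < n, u i ∈ D i} := by
  have : {u : ℕ → U | ∀ i < n, u i ∈ D i} = Set.pi (Finset.range n : Set ℕ) D := by
    ext u; simp
  rw [this]
  exact MeasurableSet.pi (Finset.countable_toSet _) fun i _ => hD i

theorem eq_smul_seqM (ν : Measure (ℕ → U)) {c : ℝ≥0∞} (hc : c ≠ ∞)
    (h : ∀ n (D : ℕ → Set U), (∀ i, MeasurableSet (D i)) →
      ν {u | ∀ i < n, u i ∈ D i} = c * ∏ i ∈ Finset.range n, lam (D i)) :
    ν = c • seqM lam := by
  by_cases h0 : c = 0
  · have := h 0 (fun _ => univ) fun _ => MeasurableSet.univ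
    simp only [h0, zero_smul] at this ⊢
    simpa using this
  · have : c⁻¹ • ν = seqM lam := by
      refine Measure.eq_infinitePi _ fun s t ht => ?_
      obtain ⟨n, D, h1, h2, h3⟩ := box_range lam s t
      rw [h2, h3, Measure.smul_apply, h n D (h1 ht), smul_eq_mul, ← mul_assoc,
        ENNReal.inv_mul_cancel h0 hc, one_mul]
    rw [← this, smul_smul, ENNReal.mul_inv_cancel h0 hc, one_smul]

theorem mp_cns : MeasurePreserving cns (lam.prod (seqM lam)) (seqM lam) := by
  refine ⟨measurable_cns, ?_⟩
  have := eq_smul_seqM lam ((lam.prod (seqM lam)).map cns) (c := 1) one_ne_top ?_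
  · simpa using this
  intro n D hD
  rw [Measure.map_apply measurable_cns (meas_box n D hD), one_mul]
  cases n with
  | zero => simp
  | succ n =>
    have : cns ⁻¹' {u : ℕ → U | ∀ i < n + 1, u i ∈ D i} =
        D 0 ×ˢ {u : ℕ → U | ∀ i < n, u i ∈ D (i + 1)} := by
      ext p
      simp only [mem_preimage, Set.mem_ofPred_eq, mem_prod]
      constructor
      · intro h
        exact ⟨h 0 (by omega), fun i hi => h (i + 1) (by omega)⟩
      · rintro ⟨h1, h2⟩ i hi
        cases i with
        | zero => exact h1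
        | succ i => exact h2 i (by omega)
    rw [this, Measure.prod_prod, seqM_box lam n _ fun i => hD (i + 1), Finset.prod_range_succ',
      mul_comm]

theorem mp_uncons : MeasurePreserving (fun u : ℕ → U => (u 0, tl u)) (seqM lam)
    (lam.prod (seqM lam)) := by
  have hm : Measurable fun u : ℕ → U => (u 0, tl u) :=
    (measurable_pi_apply 0).prodMk measurable_tl
  refine ⟨hm, ?_⟩
  conv_lhs => rw [← (mp_cns lam).map_eq]
  rw [Measure.map_map hm measurable_cns]
  exact Measure.map_id

theorem lintegral_uncons (G : U × (ℕ → U) → ℝ≥0∞) (hG : Measurable G) :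
    ∫⁻ u, G (u 0, tl u) ∂seqM lam = ∫⁻ t, ∫⁻ u, G (t, u) ∂seqM lam ∂lam := by
  rw [(mp_uncons lam).lintegral_comp hG, lintegral_prod _ hG.aemeasurable]

theorem integral_uncons (G : U × (ℕ → U) → ℝ) (hG : Measurable G) {C : ℝ} (hC : ∀ p, |G p| ≤ C) :
    ∫ u, G (u 0, tl u) ∂seqM lam = ∫ t, ∫ u, G (t, u) ∂seqM lam ∂lam := by
  rw [← integral_prod _ ((integrable_const C).mono' hG.aestronglyMeasurable
    (Eventually.of_forall hC)), ← (mp_uncons lam).map_eq,
    integral_map (mp_uncons lam).measurable.aemeasurable hG.aestronglyMeasurable]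

variable {Z : Type*} [MeasurableSpace Z] {Q : Measure Z} [IsFiniteMeasure Q]

/-- The skew product. -/
def skew (F : Z × U → Z) (ω : Z × (ℕ → U)) : Z × (ℕ → U) := (F (ω.1, ω.2 0), tl ω.2)

variable {lam}

theorem mp_skew {F : Z × U → Z} (hF : MeasurePreserving F (Q.prod lam) Q) :
    MeasurePreserving (skew F) (Q.prod (seqM lam)) (Q.prod (seqM lam)) := by
  have h1 := (MeasurePreserving.id Q).prod (mp_uncons lam)
  have h2 := (measurePreserving_prodAssoc Q lam (seqM lam)).symm
  have h3 := hF.prod (MeasurePreserving.id (seqM lam))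
  exact (h3.comp h2).comp h1

theorem harmonic_ae {F : Z × U → Z} (hF : MeasurePreserving F (Q.prod lam) Q) {H : Z → ℝ}
    (hH : Measurable H) (h1 : ∀ z, |H z| ≤ 1) (hh : ∀ z, ∫ t, H (F (z, t)) ∂lam = H z) :
    ∀ᵐ p ∂Q.prod lam, H (F p) = H p.1 := by
  have hb : ∀ {g : Z × U → ℝ}, Measurable g → ∀ C : ℝ, (∀ p, |g p| ≤ C) →
      Integrable g (Q.prod lam) := fun hg C hC =>
    (integrable_const C).mono' hg.aestronglyMeasurable (Eventually.of_forall hC)
  have hm1 : Measurable fun p : Z × U => H (F p) := hH.comp hF.measurable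
  have hm2 : Measurable fun p : Z × U => H p.1 := hH.comp measurable_fst
  have hmul : ∀ a b : Z, |H a * H b| ≤ 1 := fun a b => by
    rw [abs_mul]; exact mul_le_one₀ (h1 a) (abs_nonneg _) (h1 b)
  have i1 : Integrable (fun p : Z × U => H (F p) * H (F p)) (Q.prod lam) :=
    hb (hm1.mul hm1) 1 fun p => hmul _ _
  have i2 : Integrable (fun p : Z × U => H p.1 * H (F p)) (Q.prod lam) :=
    hb (hm2.mul hm1) 1 fun p => hmul _ _
  have i3 : Integrable (fun p : Z × U => H p.1 * H p.1) (Q.prod lam) :=
    hb (hm2.mul hm2) 1 fun p => hmul _ _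
  have i5 : Integrable (fun p : Z × U => 2 * (H p.1 * H (F p))) (Q.prod lam) := i2.const_mul 2
  have i6 : Integrable (fun p : Z × U => H (F p) * H (F p) - 2 * (H p.1 * H (F p)))
      (Q.prod lam) := i1.sub i5
  have e1 : ∫ p, H (F p) * H (F p) ∂Q.prod lam = ∫ z, H z * H z ∂Q := by
    conv_rhs => rw [← hF.map_eq]
    rw [integral_map hF.measurable.aemeasurable
      (show Measurable fun z => H z * H z from hH.mul hH).aestronglyMeasurable]
  have e2 : ∫ p, H p.1 * H (F p) ∂Q.prod lam = ∫ z, H z * H z ∂Q := by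
    rw [integral_prod _ i2]
    refine integral_congr_ae (Eventually.of_forall fun z => ?_)
    simp only [integral_const_mul, hh]
  have e3 : ∫ p, H p.1 * H p.1 ∂Q.prod lam = ∫ z, H z * H z ∂Q := by
    rw [integral_prod _ i3]
    simp
  have e4 : ∫ p, (H (F p) - H p.1) ^ 2 ∂Q.prod lam = 0 := by
    have : ∀ p : Z × U, (H (F p) - H p.1) ^ 2 =
        (H (F p) * H (F p) - 2 * (H p.1 * H (F p))) + H p.1 * H p.1 := fun p => by ring
    simp_rw [this]
    rw [integral_add i6 i3, integral_sub i1 i5,
      integral_const_mul, e1, e2, e3]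
    ring
  have i4 : Integrable (fun p : Z × U => (H (F p) - H p.1) ^ 2) (Q.prod lam) :=
    hb ((hm1.sub hm2).pow_const 2) 4 fun p => by
      have a := abs_le.1 (h1 (F p))
      have b := abs_le.1 (h1 p.1)
      rw [abs_of_nonneg (sq_nonneg _)]
      nlinarith
  have := (integral_eq_zero_iff_of_nonneg (fun p => sq_nonneg _) i4).1 e4
  filter_upwards [this] with p hp
  simpa [sub_eq_zero] using hp

theorem ergodic_skew {F : Z × U → Z} (hF : MeasurePreserving F (Q.prod lam) Q)
    (hc : ∀ h : Z → ℝ, Measurable h → (∀ᵐ p ∂Q.prod lam, h (F p) = h p.1) →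
      ∃ k, ∀ᵐ z ∂Q, h z = k) : Ergodic (skew F) (Q.prod (seqM lam)) := by
  refine ⟨mp_skew hF, ⟨fun A hA hinv => ?_⟩⟩
  have hsec : ∀ z, MeasurableSet (Prod.mk z ⁻¹' A) := fun z => measurable_prodMk_left hA
  have hrec : ∀ (z : Z) (D : Set U) (B : Set (ℕ → U)), MeasurableSet D → MeasurableSet B →
      seqM lam (Prod.mk z ⁻¹' A ∩ {u | u 0 ∈ D ∧ tl u ∈ B}) =
        ∫⁻ t in D, seqM lam (Prod.mk (F (z, t)) ⁻¹' A ∩ B) ∂lam := by
    intro z D B hD hB
    have hS : MeasurableSet ({p : U × (ℕ → U) | (F (z, p.1), p.2) ∈ A} ∩ D ×ˢ B) :=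
      (((hF.measurable.comp (measurable_const.prodMk measurable_fst)).prodMk measurable_snd)
        hA).inter (hD.prod hB)
    have e : Prod.mk z ⁻¹' A ∩ {u | u 0 ∈ D ∧ tl u ∈ B} = (fun u : ℕ → U => (u 0, tl u)) ⁻¹'
        ({p : U × (ℕ → U) | (F (z, p.1), p.2) ∈ A} ∩ D ×ˢ B) := by
      ext u
      have : (z, u) ∈ A ↔ skew F (z, u) ∈ A := by
        conv_lhs => rw [← hinv]
        rfl
      simp [this, skew]
    rw [e, (mp_uncons lam).measure_preimage hS.nullMeasurableSet, Measure.prod_apply hS,
      ← lintegral_indicator hD]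
    refine lintegral_congr fun t => ?_
    by_cases ht : t ∈ D
    · rw [indicator_of_mem ht]
      congr 1
      ext u
      simp [ht]
    · rw [indicator_of_notMem ht]
      convert measure_empty (μ := seqM lam)
      ext u
      simp [ht]
  have hhm : Measurable fun z => seqM lam (Prod.mk z ⁻¹' A) := measurable_measure_prodMk_left hA
  obtain ⟨k, hk⟩ := hc (fun z => (seqM lam (Prod.mk z ⁻¹' A)).toReal) hhm.ennreal_toReal
    (harmonic_ae hF hhm.ennreal_toReal (fun z => by
      rw [abs_of_nonneg ENNReal.toReal_nonneg]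
      exact ENNReal.toReal_le_of_le_ofReal zero_le_one (by simpa using prob_le_one)) fun z => by
      have := hrec z univ univ MeasurableSet.univ MeasurableSet.univ
      simp only [mem_univ, and_self, Set.ofPred_true, inter_univ, Measure.restrict_univ] at this
      rw [integral_toReal (f := fun t => seqM lam (Prod.mk (F (z, t)) ⁻¹' A))
        ((hhm.comp (hF.measurable.comp measurable_prodMk_left)).aemeasurable)
        (Eventually.of_forall fun t => measure_lt_top _ _), this])
  have hk' : ∀ᵐ z ∂Q, seqM lam (Prod.mk z ⁻¹' A) = ENNReal.ofReal k := by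
    filter_upwards [hk] with z hz
    rw [← hz, ENNReal.ofReal_toReal (measure_ne_top _ _)]
  have hbox : ∀ n (D : ℕ → Set U), (∀ i, MeasurableSet (D i)) → ∀ᵐ z ∂Q,
      seqM lam (Prod.mk z ⁻¹' A ∩ {u | ∀ i < n, u i ∈ D i}) =
        ENNReal.ofReal k * ∏ i ∈ Finset.range n, lam (D i) := by
    intro n
    induction n with
    | zero =>
      intro D _
      filter_upwards [hk'] with z hz
      simpa using hz
    | succ n ih =>
      intro D hD
      have h1 := ih (fun i => D (i + 1)) fun i => hD _
      have h2 := Measure.ae_ae_of_ae_prod (hF.quasiMeasurePreserving.ae h1)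
      filter_upwards [h2] with z hz
      have e : {u : ℕ → U | ∀ i < n + 1, u i ∈ D i} =
          {u | u 0 ∈ D 0 ∧ tl u ∈ {u : ℕ → U | ∀ i < n, u i ∈ D (i + 1)}} := by
        ext u
        simp only [Set.mem_ofPred_eq, tl]
        constructor
        · intro h
          exact ⟨h 0 (by omega), fun i hi => h (i + 1) (by omega)⟩
        · rintro ⟨h1, h2⟩ i hi
          cases i with
          | zero => exact h1
          | succ i => exact h2 i (by omega)
      rw [e, hrec z _ _ (hD 0) (meas_box n _ fun i => hD _),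
        lintegral_congr_ae (ae_restrict_of_ae hz), setLIntegral_const, Finset.prod_range_succ',
        mul_assoc]
  have hmain : (Q.prod (seqM lam)).restrict A = ENNReal.ofReal k • Q.prod (seqM lam) := by
    refine Measure.ext_prod fun {C B} hC hB => ?_
    have := eq_smul_seqM lam ((((Q.prod (seqM lam)).restrict A).restrict (C ×ˢ univ)).map Prod.snd)
      (c := ENNReal.ofReal k * Q C) (ENNReal.mul_ne_top ofReal_ne_top (measure_ne_top _ _)) ?_
    · have h2 := congrArg (fun ν : Measure (ℕ → U) => ν B) this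
      simp only [Measure.smul_apply, smul_eq_mul] at h2 ⊢
      rw [Measure.map_apply measurable_snd hB, Measure.restrict_apply (measurable_snd hB)] at h2
      rw [Measure.prod_prod, ← mul_assoc, ← h2]
      congr 1
      ext p
      simp [and_comm]
    · intro n D hD
      have hB' := meas_box n D hD
      have hS : MeasurableSet ((Prod.snd ⁻¹' {u : ℕ → U | ∀ i < n, u i ∈ D i} ∩ C ×ˢ univ) ∩ A) :=
        ((measurable_snd hB').inter (hC.prod MeasurableSet.univ)).inter hA
      rw [Measure.map_apply measurable_snd hB', Measure.restrict_apply (measurable_snd hB'),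
        Measure.restrict_apply ((measurable_snd hB').inter (hC.prod MeasurableSet.univ)),
        Measure.prod_apply hS, mul_right_comm, ← setLIntegral_const, ← lintegral_indicator hC]
      refine lintegral_congr_ae ?_
      filter_upwards [hbox n D hD] with z hz
      by_cases ht : z ∈ C
      · rw [indicator_of_mem ht, ← hz]
        congr 1
        ext u
        simp [ht, and_comm]
      · rw [indicator_of_notMem ht]
        convert measure_empty (μ := seqM lam)
        ext u
        simp [ht]
  rw [eventuallyConst_set']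
  by_cases h0 : ENNReal.ofReal k = 0
  · left
    have := congrArg (fun ν : Measure (Z × (ℕ → U)) => ν univ) hmain
    simp only [h0, zero_smul, Measure.restrict_apply MeasurableSet.univ, univ_inter,
      Measure.coe_zero, Pi.zero_apply] at this
    exact ae_eq_empty.2 this
  · right
    have := congrArg (fun ν : Measure (Z × (ℕ → U)) => ν Aᶜ) hmain
    simp only [Measure.restrict_apply hA.compl, compl_inter_self, measure_empty,
      Measure.smul_apply, smul_eq_mul] at this
    exact ae_eq_univ.2 ((mul_eq_zero.1 this.symm).resolve_left h0)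

end Pool.Agent.H426Z.RC
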