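import Mathlib
import Pool.Agent.H426Z.RC.W1
import Pool.Agent.H426Z.RC.Skew
import Pool.Agent.H426Z.RC.Bern

/-!
# The environment seen from the walk: stationarity and ergodicity
-/

open MeasureTheory ProbabilityTheory Filter Topology ENNReal Set unitInterval

set_option linter.unusedSectionVars false

namespace Pool.Agent.H426Z.RC

/-- Truncation of the conductances. -/
noncomputable def cl {ι : Type} (ε K : ℝ) (c : ι → ℝ) : ι → ℝ := fun e => max ε (min (c e) K)

theorem cl_mem {ι : Type} {ε K : ℝ} (h : ε ≤ K) (c : ι → ℝ) (e : ι) : cl ε K c e ∈ Icc ε K :=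
  ⟨le_max_left _ _, max_le h (min_le_right _ _)⟩

theorem cl_eq {ι : Type} {ε K : ℝ} {c : ι → ℝ} (h : ∀ e, c e ∈ Icc ε K) : cl ε K c = c := by
  funext e
  rw [cl, min_eq_left (h e).2, max_eq_right (h e).1]

theorem measurable_cl {ι : Type} (ε K : ℝ) : Measurable (cl ε K : (ι → ℝ) → ι → ℝ) :=
  measurable_pi_lambda _ fun e => measurable_const.max ((measurable_pi_apply e).min measurable_const)

variable {Γ R : Type} [Group Γ] [Countable Γ] [Infinite Γ] [Fintype R] [MeasurableSpace Γ]
  [DiscreteMeasurableSpace Γ] [MeasurableSpace R] [DiscreteMeasurableSpace R]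
  {G : SimpleGraph (Γ × R)}

/-- A random map realising the transition probabilities. -/
structure Step (G : SimpleGraph (Γ × R)) (ε K : ℝ) where
  /-- the random map -/
  f : ((G.edgeSet → ℝ) × R) × I → Γ × R
  meas : Measurable f
  adj : ∀ p, G.Adj (1, p.1.2) (f p)
  law : ∀ z y, volume {t | f (z, t) = y} = ENNReal.ofReal (trans G (cl ε K z.1) (1, z.2) y)

theorem QT.exists_step (hG : QT G) {ε K : ℝ} (hε : 0 < ε) (hK : ε ≤ K) :
    Nonempty (Step G ε K) := by
  classical
  set p : (G.edgeSet → ℝ) × R → Γ × R → ℝ≥0∞ := fun z y =>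
    ENNReal.ofReal (trans G (cl ε K z.1) (1, z.2) y) with hp
  have hpm : Measurable (Function.uncurry p) := by
    refine measurable_from_prod_countable_left fun y => ?_
    refine measurable_from_prod_countable_left fun r => ?_
    exact ((hG.measurable_trans (1, r) y).comp (measurable_cl ε K)).ennreal_ofReal
  set κ : Kernel ((G.edgeSet → ℝ) × R) (Γ × R) :=
    (Kernel.const _ Measure.count).withDensity p with hκ
  have hκs : ∀ z y, κ z {y} = p z y := by
    intro z y
    rw [hκ, Kernel.withDensity_apply' _ hpm, Kernel.const_apply, lintegral_singleton]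
    simp
  have hsum : ∀ z, ∑' y, p z y = 1 := by
    intro z
    rw [tsum_eq_sum (s := hG.N (1, z.2)) (fun y hy => by
      simp only [hp]; rw [hG.trans_nadj _ (by simpa using hy)]; simp)]
    simp only [hp]
    rw [← ENNReal.ofReal_sum_of_nonneg fun y _ => hG.trans_nonneg hε (cl_mem hK _) _ _,
      hG.sum_trans hε (cl_mem hK _), ENNReal.ofReal_one]
  haveI : IsMarkovKernel κ := ⟨fun z => ⟨by
    rw [hκ, Kernel.withDensity_apply' _ hpm, Kernel.const_apply, Measure.restrict_univ,
      lintegral_count, hsum]⟩⟩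
  haveI : Nonempty (Γ × R) := hG.conn.nonempty
  obtain ⟨f, hf, hfκ⟩ := κ.exists_measurable_map_eq_unitInterval
  choose nb hnb using hG.exists_adj
  have hf' : Measurable fun q : ((G.edgeSet → ℝ) × R) × I => (f q.1 q.2, q.1.2) :=
    hf.prodMk (measurable_snd.comp measurable_fst)
  refine ⟨⟨fun q => if G.Adj (1, q.1.2) (f q.1 q.2) then f q.1 q.2 else nb (1, q.1.2),
    (Measurable.of_discrete (f := fun w : (Γ × R) × R =>
      if G.Adj (1, w.2) w.1 then w.1 else nb (1, w.2))).comp hf', fun q => ?_, fun z y => ?_⟩⟩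
  · split_ifs with h
    · exact h
    · exact hnb _
  · have hfz : Measurable (f z) := hf.comp measurable_prodMk_left
    have hae : ∀ᵐ t ∂(volume : Measure I), G.Adj (1, z.2) (f z t) := by
      have : ∀ᵐ y ∂κ z, G.Adj (1, z.2) y := by
        rw [ae_iff, ← Set.biUnion_of_singleton {a | ¬G.Adj (1, z.2) a},
          measure_biUnion_null_iff (to_countable _)]
        intro y hy
        rw [hκs]
        simp only [hp]
        rw [hG.trans_nadj _ hy, ENNReal.ofReal_zero]
      rw [← hfκ] at this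
      exact ae_of_ae_map hfz.aemeasurable this
    change _ = p z y
    rw [← hκs, ← hfκ, Measure.map_apply hfz (measurableSet_singleton y)]
    refine measure_congr ?_
    filter_upwards [hae] with t ht
    change ((if G.Adj (1, z.2) (f z t) then f z t else nb (1, z.2)) = y) = (f z t = y)
    rw [if_pos ht]

namespace Step

variable {ε K : ℝ} (S : Step G ε K)

theorem map_eq (z : (G.edgeSet → ℝ) × R) (y : Γ × R) :
    (volume.map fun t => S.f (z, t)) {y} = ENNReal.ofReal (trans G (cl ε K z.1) (1, z.2) y) := by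
  rw [Measure.map_apply (f := fun t => S.f (z, t)) (S.meas.comp measurable_prodMk_left)
    (measurableSet_singleton y), ← S.law]
  rfl

theorem lintegral_f (z : (G.edgeSet → ℝ) × R) (g : Γ × R → ℝ≥0∞) :
    ∫⁻ t, g (S.f (z, t)) = ∑' y, ENNReal.ofReal (trans G (cl ε K z.1) (1, z.2) y) * g y := by
  rw [← lintegral_map (f := g) (g := fun t => S.f (z, t)) Measurable.of_discrete
    (S.meas.comp measurable_prodMk_left), lintegral_countable']
  exact tsum_congr fun y => by rw [S.map_eq, mul_comm]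

theorem integral_f (hG : QT G) (hε : 0 < ε) (hK : ε ≤ K) (z : (G.edgeSet → ℝ) × R)
    (g : Γ × R → ℝ) :
    ∫ t, g (S.f (z, t)) = ∑ y ∈ hG.N (1, z.2), trans G (cl ε K z.1) (1, z.2) y * g y := by
  classical
  have hm : ∀ y, MeasurableSet {t | S.f (z, t) = y} := fun y =>
    (S.meas.comp measurable_prodMk_left) (measurableSet_singleton y)
  have e : ∀ t, g (S.f (z, t)) =
      ∑ y ∈ hG.N (1, z.2), Set.indicator {t | S.f (z, t) = y} (fun _ => g y) t := by
    intro t
    rw [Finset.sum_eq_single (S.f (z, t))]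
    · rw [indicator_of_mem (by simp)]
    · intro y _ hy
      rw [indicator_of_notMem (by simpa using hy.symm)]
    · intro h
      exact absurd (hG.mem_N.2 (S.adj (z, t))) h
  simp_rw [e]
  rw [integral_finsetSum _ fun y _ => (integrable_const _).indicator (hm y)]
  refine Finset.sum_congr rfl fun y _ => ?_
  rw [integral_indicator (hm y), setIntegral_const, measureReal_def, S.law,
    ENNReal.toReal_ofReal (hG.trans_nonneg hε (cl_mem hK _) _ _), smul_eq_mul]

/-- The environment after one step. -/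
def F (hG : QT G) (p : ((G.edgeSet → ℝ) × R) × I) : (G.edgeSet → ℝ) × R :=
  (hG.tau (S.f p).1 p.1.1, (S.f p).2)

end Step

omit [Infinite Γ] [Fintype R] [MeasurableSpace R] [DiscreteMeasurableSpace R] in
theorem QT.measurable_tau (hG : QT G) :
    Measurable fun q : (G.edgeSet → ℝ) × Γ => hG.tau q.2 q.1 :=
  measurable_from_prod_countable_left fun γ =>
    measurable_pi_lambda _ fun e => measurable_pi_apply ((hG.iso γ).mapEdgeSet e)

theorem Step.measurable_F {ε K : ℝ} (S : Step G ε K) (hG : QT G) : Measurable (S.F hG) :=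
  (hG.measurable_tau.comp ((measurable_fst.comp measurable_fst).prodMk
    (measurable_fst.comp S.meas))).prodMk (measurable_snd.comp S.meas)

/-- The law of the environment. -/
noncomputable abbrev env (G : SimpleGraph (Γ × R)) (ν : Measure ℝ) : Measure (G.edgeSet → ℝ) :=
  Measure.infinitePi fun _ : G.edgeSet => ν

/-- The stationary measure. -/
noncomputable def QT.Q (hG : QT G) (ε K : ℝ) (ν : Measure ℝ) : Measure ((G.edgeSet → ℝ) × R) :=
  ((env G ν).prod Measure.count).withDensity fun z =>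
    ENNReal.ofReal (hG.pi (cl ε K z.1) (1, z.2))

variable (hG : QT G) {ε K : ℝ} (ν : Measure ℝ) [IsProbabilityMeasure ν]

omit [Countable Γ] [Infinite Γ] [MeasurableSpace Γ] [DiscreteMeasurableSpace Γ] in
theorem QT.measurable_piz :
    Measurable fun z : (G.edgeSet → ℝ) × R => hG.pi (cl ε K z.1) (1, z.2) :=
  measurable_from_prod_countable_left fun r =>
    (hG.measurable_pi (1, r)).comp (measurable_cl ε K)

omit [Countable Γ] [Infinite Γ] [MeasurableSpace Γ] [DiscreteMeasurableSpace Γ] in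
theorem QT.lintegral_Q {g : (G.edgeSet → ℝ) × R → ℝ≥0∞} (hg : Measurable g) :
    ∫⁻ z, g z ∂hG.Q ε K ν =
      ∑' r, ∫⁻ c, ENNReal.ofReal (hG.pi (cl ε K c) (1, r)) * g (c, r) ∂env G ν := by
  rw [QT.Q, lintegral_withDensity_eq_lintegral_mul _ hG.measurable_piz.ennreal_ofReal hg,
    lintegral_prod_symm _ (hG.measurable_piz.ennreal_ofReal.mul hg).aemeasurable, lintegral_count]
  rfl

omit [Countable Γ] [Infinite Γ] [MeasurableSpace Γ] [DiscreteMeasurableSpace Γ] in
theorem QT.finite_Q (hK : ε ≤ K) : IsFiniteMeasure (hG.Q ε K ν) := by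
  refine ⟨?_⟩
  rw [← setLIntegral_one, Measure.restrict_univ, hG.lintegral_Q ν measurable_const, tsum_fintype]
  refine ENNReal.sum_lt_top.2 fun r _ => ?_
  refine lt_of_le_of_lt (lintegral_mono (g := fun _ => ENNReal.ofReal ((hG.N (1, r)).card * K))
    fun c => ?_) (by rw [lintegral_const, measure_univ, mul_one]; exact ofReal_lt_top)
  simpa using ENNReal.ofReal_le_ofReal (hG.pi_le (cl_mem hK c) (1, r))

omit [Countable Γ] [MeasurableSpace Γ] [DiscreteMeasurableSpace Γ] in
theorem QT.ae_Q (hε : 0 < ε) (hK : ε ≤ K) {P : (G.edgeSet → ℝ) × R → Prop} :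
    (∀ᵐ z ∂hG.Q ε K ν, P z) ↔ ∀ᵐ c ∂env G ν, ∀ r, P (c, r) := by
  rw [QT.Q, ae_withDensity_iff hG.measurable_piz.ennreal_ofReal]
  constructor
  · intro h
    filter_upwards [Measure.ae_ae_of_ae_prod h] with c hc r
    refine Measure.ae_count_iff.1 hc r ?_
    simpa using hε.trans_le (hG.le_pi hε (cl_mem hK c) (1, r))
  · intro h
    filter_upwards [Measure.quasiMeasurePreserving_fst.ae h] with z hz _
    exact hz z.2

omit [Countable Γ] [Infinite Γ] [Fintype R] [MeasurableSpace Γ] [DiscreteMeasurableSpace Γ]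
  [MeasurableSpace R] [DiscreteMeasurableSpace R] in
theorem QT.mp_tau (γ : Γ) : MeasurePreserving (hG.tau γ) (env G ν) (env G ν) :=
  mp_perm ν (hG.iso γ).mapEdgeSet

omit [Countable Γ] [Infinite Γ] [Fintype R] [MeasurableSpace Γ] [DiscreteMeasurableSpace Γ]
  [MeasurableSpace R] [DiscreteMeasurableSpace R] in
theorem QT.cl_tau (γ : Γ) (c : G.edgeSet → ℝ) :
    cl ε K (hG.tau γ c) = hG.tau γ (cl ε K c) := rfl

omit [Countable Γ] [Infinite Γ] [Fintype R] [MeasurableSpace Γ] [DiscreteMeasurableSpace Γ]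
  [MeasurableSpace R] [DiscreteMeasurableSpace R] in
theorem QT.ofReal_pi (hε : 0 < ε) (hK : ε ≤ K) (c : G.edgeSet → ℝ) (x : Γ × R) :
    ENNReal.ofReal (hG.pi (cl ε K c) x) = ∑' y, ENNReal.ofReal (cond G (cl ε K c) x y) := by
  rw [tsum_eq_sum (s := hG.N x) (fun y hy => by rw [cond_nadj _ (by simpa using hy)]; simp),
    QT.pi, ENNReal.ofReal_sum_of_nonneg fun y _ => cond_nonneg hε (cl_mem hK _) _ _]

theorem Step.mp_F (S : Step G ε K) (hε : 0 < ε) (hK : ε ≤ K) :
    MeasurePreserving (S.F hG) ((hG.Q ε K ν).prod volume) (hG.Q ε K ν) := by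
  haveI := hG.finite_Q ν hK
  have key : ∀ g : (G.edgeSet → ℝ) × R → ℝ≥0∞, Measurable g →
      ∫⁻ p, g (S.F hG p) ∂(hG.Q ε K ν).prod volume = ∫⁻ z, g z ∂hG.Q ε K ν := by
    intro g hg
    have hgF : Measurable fun p => g (S.F hG p) := hg.comp (S.measurable_F hG)
    rw [lintegral_prod _ hgF.aemeasurable, hG.lintegral_Q ν hgF.lintegral_prod_right',
      hG.lintegral_Q ν hg]
    have hm : ∀ x y s, Measurable fun c : G.edgeSet → ℝ =>
        ENNReal.ofReal (cond G (cl ε K c) x y) * g (c, s) := fun x y s =>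
      ((measurable_cond x y).comp (measurable_cl ε K)).ennreal_ofReal.mul
        (hg.comp measurable_prodMk_right)
    have h1 : ∀ r, ∫⁻ c, ENNReal.ofReal (hG.pi (cl ε K c) (1, r)) *
        ∫⁻ t, g (S.F hG ((c, r), t)) ∂volume ∂env G ν = ∑' y : Γ × R,
          ∫⁻ c, ENNReal.ofReal (cond G (cl ε K c) (y.1⁻¹, r) (1, y.2)) * g (c, y.2) ∂env G ν := by
      intro r
      have h2 : ∀ c, ENNReal.ofReal (hG.pi (cl ε K c) (1, r)) *
          ∫⁻ t, g (S.F hG ((c, r), t)) ∂volume = ∑' y : Γ × R,
            ENNReal.ofReal (cond G (cl ε K (hG.tau y.1 c)) (y.1⁻¹, r) (1, y.2)) *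
              g (hG.tau y.1 c, y.2) := by
        intro c
        have := S.lintegral_f (c, r) fun y => g (hG.tau y.1 c, y.2)
        simp only [Step.F]
        rw [this, ← ENNReal.tsum_mul_left]
        refine tsum_congr fun y => ?_
        have hpos := hε.trans_le (hG.le_pi hε (cl_mem hK c) (1, r))
        rw [← mul_assoc, ← ENNReal.ofReal_mul hpos.le, hG.trans_eq, mul_div_cancel₀ _ hpos.ne',
          hG.cl_tau, hG.cond_tau]
        simp [sh]
      simp_rw [h2]
      have h3 : ∀ y : Γ × R, Measurable fun c : G.edgeSet → ℝ =>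
          ENNReal.ofReal (cond G (cl ε K (hG.tau y.1 c)) (y.1⁻¹, r) (1, y.2)) *
              g (hG.tau y.1 c, y.2) := fun y => by
        have h4 := (hm (y.1⁻¹, r) (1, y.2) y.2).comp (hG.mp_tau ν y.1).measurable
        simpa only [Function.comp_def] using h4
      rw [lintegral_tsum fun y => (h3 y).aemeasurable]
      exact tsum_congr fun y => (hG.mp_tau ν y.1).lintegral_comp (hm (y.1⁻¹, r) (1, y.2) y.2)
    simp_rw [h1]
    rw [tsum_swap fun γ r s =>
      ∫⁻ c, ENNReal.ofReal (cond G (cl ε K c) (γ, r) (1, s)) * g (c, s) ∂env G ν]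
    refine tsum_congr fun s => ?_
    rw [← lintegral_tsum fun y : Γ × R => (hm (y.1, y.2) (1, s) s).aemeasurable]
    refine lintegral_congr fun c => ?_
    rw [ENNReal.tsum_mul_right, hG.ofReal_pi hε hK]
    congr 1
    exact tsum_congr fun y => by rw [cond_symm]
  refine ⟨S.measurable_F hG, ?_⟩
  ext A hA
  rw [Measure.map_apply (S.measurable_F hG) hA, ← lintegral_indicator_one hA,
    ← key _ (measurable_one.indicator hA), ← lintegral_indicator_one (S.measurable_F hG hA)]
  rfl

theorem Step.ergodic (S : Step G ε K) (hε : 0 < ε) (hK : ε ≤ K) :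
    Ergodic (skew (S.F hG)) ((hG.Q ε K ν).prod (seqM volume)) := by
  haveI := hG.finite_Q ν hK
  refine ergodic_skew (S.mp_F hG ν hε hK) fun h hh hae => ?_
  have h1 := (hG.ae_Q ν hε hK).1 (Measure.ae_ae_of_ae_prod hae)
  have h2 : ∀ᵐ c ∂env G ν, ∀ r y, G.Adj (1, r) y → h (hG.tau y.1 c, y.2) = h (c, r) := by
    filter_upwards [h1] with c hc r y hy
    have h3 : volume {t | S.f ((c, r), t) = y} ≠ 0 := by
      rw [S.law]
      simpa using hG.trans_pos hε (cl_mem hK c) hy
    obtain ⟨t, ht1, ht2⟩ := (Measure.exists_mem_of_measure_ne_zero_of_ae h3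
      (ae_restrict_of_ae (hc r)))
    simp only [Step.F] at ht2
    rwa [show S.f ((c, r), t) = y from ht1] at ht2
  have h3 : ∀ᵐ c ∂env G ν, ∀ γ r y, G.Adj (1, r) y →
      h (hG.tau y.1 (hG.tau γ c), y.2) = h (hG.tau γ c, r) :=
    ae_all_iff.2 fun γ => (hG.mp_tau ν γ).quasiMeasurePreserving.ae h2
  have h4 : ∀ᵐ c ∂env G ν, ∀ x y : Γ × R,
      h (hG.tau x.1 c, x.2) = h (hG.tau y.1 c, y.2) := by
    filter_upwards [h3] with c hc x y
    obtain ⟨p⟩ := hG.conn.preconnected x y
    induction p with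
    | nil => rfl
    | @cons x y z hadj p ih =>
      rw [← ih]
      have := hc x.1 x.2 (sh x.1⁻¹ y) (by simpa [sh] using hG.inv x.1⁻¹ _ _ hadj)
      rw [hG.tau_tau] at this
      simpa [sh] using this.symm
  obtain ⟨⟨γ₀, r₀⟩⟩ := hG.conn.nonempty
  obtain ⟨k, hk⟩ := const_of_perm ν (fun γ => (hG.iso γ).mapEdgeSet) hG.disj
    (g := fun c => h (c, r₀)) (hh.comp measurable_prodMk_right) fun γ => by
      filter_upwards [h4] with c hc
      have := hc (γ, r₀) (1, r₀)
      rwa [hG.tau_one] at this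
  refine ⟨k, (hG.ae_Q ν hε hK).2 ?_⟩
  filter_upwards [h4, hk] with c hc hk r
  have := hc (1, r) (1, r₀)
  rw [hG.tau_one] at this
  exact this.trans hk

end Pool.Agent.H426Z.RC
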