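import Mathlib
import Pool.Agent.H426Z.RC.W2
import Pool.Agent.H426Z.RC.King

/-!
# The walk: existence of the speed and a drift bound
-/

open MeasureTheory ProbabilityTheory Filter Topology ENNReal Set unitInterval

set_option linter.unusedSectionVars false

namespace Pool.Agent.H426Z.RC

variable {Γ R : Type} [Group Γ] [Countable Γ] [Infinite Γ] [Fintype R] [MeasurableSpace Γ]
  [DiscreteMeasurableSpace Γ] [MeasurableSpace R] [DiscreteMeasurableSpace R]
  {G : SimpleGraph (Γ × R)} {ε K : ℝ}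

namespace Step

variable (S : Step G ε K) (hG : QT G)

/-- The position of the walk. -/
def pos : ℕ → ((G.edgeSet → ℝ) × R) × (ℕ → I) → Γ × R
  | 0, ω => (1, ω.1.2)
  | n + 1, ω => sh (S.f (ω.1, ω.2 0)).1 (pos n (skew (S.F hG) ω))

theorem measurable_skew : Measurable (skew (S.F hG)) :=
  ((S.measurable_F hG).comp (measurable_fst.prodMk
    ((measurable_pi_apply 0).comp measurable_snd))).prodMk (measurable_tl.comp measurable_snd)

theorem measurable_pos (n : ℕ) : Measurable (S.pos hG n) := by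
  induction n with
  | zero => exact measurable_const.prodMk (measurable_snd.comp measurable_fst)
  | succ n ih =>
    have h1 : Measurable fun ω : ((G.edgeSet → ℝ) × R) × (ℕ → I) => (S.f (ω.1, ω.2 0)).1 :=
      measurable_fst.comp (S.meas.comp (measurable_fst.prodMk
        ((measurable_pi_apply 0).comp measurable_snd)))
    exact (Measurable.of_discrete (f := fun q : Γ × (Γ × R) => sh q.1 q.2)).comp
      (h1.prodMk (ih.comp (S.measurable_skew hG)))

theorem iter_fst (n : ℕ) : ∀ ω, ((skew (S.F hG))^[n] ω).1 =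
    (hG.tau (S.pos hG n ω).1 ω.1.1, (S.pos hG n ω).2) := by
  induction n with
  | zero => intro ω; simp [pos, hG.tau_one]
  | succ n ih =>
    intro ω
    rw [Function.iterate_succ_apply, ih]
    simp only [pos, sh]
    congr 1
    exact hG.tau_tau _ _ _

theorem pos_add (n k : ℕ) : ∀ ω, S.pos hG (n + k) ω =
    sh (S.pos hG n ω).1 (S.pos hG k ((skew (S.F hG))^[n] ω)) := by
  induction n with
  | zero => intro ω; simp [pos]
  | succ n ih =>
    intro ω
    rw [Nat.add_right_comm, Function.iterate_succ_apply]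
    simp only [pos]
    rw [ih, sh_sh]
    rfl

theorem pos_one (ω) : S.pos hG 1 ω = S.f (ω.1, ω.2 0) := by
  simp [pos, skew, F]

theorem pos_eq (n : ℕ) (ω) : S.pos hG n ω =
    sh (S.pos hG n ω).1 (S.pos hG 0 ((skew (S.F hG))^[n] ω)) := S.pos_add hG n 0 ω

theorem adj_pos (n : ℕ) (ω) : G.Adj (S.pos hG n ω) (S.pos hG (n + 1) ω) := by
  rw [S.pos_add hG n 1, S.pos_eq hG n ω]
  have : (sh (S.pos hG n ω).1 (S.pos hG 0 ((skew (S.F hG))^[n] ω))).1 = (S.pos hG n ω).1 := by
    simp [sh, pos]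
  rw [this]
  refine hG.inv _ _ _ ?_
  rw [S.pos_one]
  exact S.adj (_, _)

/-- The distance from the starting point. -/
noncomputable def d (n : ℕ) (ω : ((G.edgeSet → ℝ) × R) × (ℕ → I)) : ℝ :=
  G.dist (S.pos hG 0 ω) (S.pos hG n ω)

theorem measurable_d (n : ℕ) : Measurable (S.d hG n) := by
  have h := (Measurable.of_discrete (f := fun q : (Γ × R) × (Γ × R) => (G.dist q.1 q.2 : ℝ))).comp
    ((S.measurable_pos hG 0).prodMk (S.measurable_pos hG n))
  unfold d
  simpa only [Function.comp_def] using h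

theorem d_le (n : ℕ) (ω) : S.d hG n ω ≤ n := by
  induction n with
  | zero => simp [d]
  | succ n ih =>
    have h1 := hG.conn.dist_triangle (u := S.pos hG 0 ω) (v := S.pos hG n ω)
      (w := S.pos hG (n + 1) ω)
    rw [SimpleGraph.dist_eq_one_iff_adj.2 (S.adj_pos hG n ω)] at h1
    unfold d at ih ⊢
    have h2 : (G.dist (S.pos hG 0 ω) (S.pos hG (n + 1) ω) : ℝ) ≤
      G.dist (S.pos hG 0 ω) (S.pos hG n ω) + 1 := by exact_mod_cast h1
    push_cast
    linarith

theorem d_add (n k : ℕ) (ω) :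
    S.d hG (n + k) ω ≤ S.d hG n ω + S.d hG k ((skew (S.F hG))^[n] ω) := by
  have h1 := hG.conn.dist_triangle (u := S.pos hG 0 ω) (v := S.pos hG n ω)
    (w := S.pos hG (n + k) ω)
  have h2 := dist_iso_le hG.conn (hG.iso (S.pos hG n ω).1) (S.pos hG 0 ((skew (S.F hG))^[n] ω))
    (S.pos hG k ((skew (S.F hG))^[n] ω))
  simp only [QT.iso_apply] at h2
  rw [← S.pos_eq, ← S.pos_add] at h2
  unfold d
  exact_mod_cast h1.trans (Nat.add_le_add_left h2 _)

theorem cyl (n : ℕ) : ∀ (z : (G.edgeSet → ℝ) × R) (w : ℕ → Γ × R), w 0 = (1, z.2) → 0 < ε →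
    ε ≤ K → seqM volume {u | ∀ i ≤ n, S.pos hG i (z, u) = w i} =
      ENNReal.ofReal (∏ i ∈ Finset.range n, trans G (cl ε K z.1) (w i) (w (i + 1))) := by
  induction n with
  | zero =>
    intro z w hw _ _
    simp [pos, hw]
  | succ n ih =>
    intro z w hw hε hK
    have hm : MeasurableSet {u : ℕ → I | ∀ i ≤ n,
        S.pos hG i ((hG.tau (w 1).1 z.1, (w 1).2), u) = sh (w 1).1⁻¹ (w (i + 1))} := by
      rw [Set.ofPred_forall]
      refine MeasurableSet.iInter fun i => ?_
      rw [Set.ofPred_forall]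
      exact MeasurableSet.iInter fun _ => ((S.measurable_pos hG i).comp measurable_prodMk_left)
        (measurableSet_singleton _)
    have hm' : MeasurableSet {t | S.f (z, t) = w 1} :=
      (S.meas.comp measurable_prodMk_left) (measurableSet_singleton _)
    have e : {u : ℕ → I | ∀ i ≤ n + 1, S.pos hG i (z, u) = w i} =
        (fun u : ℕ → I => (u 0, tl u)) ⁻¹' ({t | S.f (z, t) = w 1} ×ˢ {u : ℕ → I | ∀ i ≤ n,
          S.pos hG i ((hG.tau (w 1).1 z.1, (w 1).2), u) = sh (w 1).1⁻¹ (w (i + 1))}) := by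
      ext u
      simp only [Set.mem_ofPred_eq, mem_preimage, mem_prod]
      constructor
      · intro h
        have h1 : S.f (z, u 0) = w 1 := by rw [← h 1 (by omega), S.pos_one]
        refine ⟨h1, fun i hi => ?_⟩
        rw [← h (i + 1) (by omega)]
        simp [pos, skew, F, h1]
      · rintro ⟨h1, h2⟩ i hi
        cases i with
        | zero => simp [pos, hw]
        | succ i =>
          simp only [pos, skew, F, h1]
          rw [h2 i (by omega)]
          simp
    rw [e, (mp_uncons volume).measure_preimage (hm'.prod hm).nullMeasurableSet, Measure.prod_prod,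
      S.law, ih _ (fun i => sh (w 1).1⁻¹ (w (i + 1))) (by simp [sh]) hε hK,
      Finset.prod_range_succ', mul_comm,
      ENNReal.ofReal_mul (Finset.prod_nonneg fun _ _ => hG.trans_nonneg hε (cl_mem hK _) _ _), hw]
    congr 2
    refine Finset.prod_congr rfl fun i _ => ?_
    rw [hG.cl_tau, hG.trans_tau]
    simp

theorem isWalkLaw (hε : 0 < ε) (hK : ε ≤ K) (z : (G.edgeSet → ℝ) × R) :
    IsWalkLaw G (cl ε K z.1) (1, z.2) ((seqM volume).map fun u n => S.pos hG n (z, u)) := by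
  have hm : Measurable fun (u : ℕ → I) n => S.pos hG n (z, u) :=
    measurable_pi_lambda _ fun n => (S.measurable_pos hG n).comp measurable_prodMk_left
  refine ⟨Measure.isProbabilityMeasure_map hm.aemeasurable, fun n w hw => ?_⟩
  rw [Measure.map_apply hm, ← S.cyl hG n z w hw hε hK]
  · rfl
  · rw [Set.ofPred_forall]
    refine MeasurableSet.iInter fun i => ?_
    rw [Set.ofPred_forall]
    exact MeasurableSet.iInter fun _ =>
      (measurable_pi_apply (X := fun _ : ℕ => Γ × R) i) (measurableSet_singleton _)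

end Step

/-- The mean one-step value. -/
noncomputable def QT.D (hG : QT G) (c : G.edgeSet → ℝ) (ψ : Γ × R → Γ × R → ℝ) (x : Γ × R) : ℝ :=
  ∑ y ∈ hG.N x, trans G c x y * ψ x y

theorem QT.abs_D (hG : QT G) (hε : 0 < ε) {c : G.edgeSet → ℝ} (hc : ∀ e, c e ∈ Icc ε K)
    {ψ : Γ × R → Γ × R → ℝ} {C : ℝ} (hψ : ∀ x y, G.Adj x y → |ψ x y| ≤ C) (x : Γ × R) :
    |hG.D c ψ x| ≤ C := by
  refine (Finset.abs_sum_le_sum_abs _ _).trans ?_
  refine (Finset.sum_le_sum (g := fun y => trans G c x y * C) fun y hy => ?_).trans ?_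
  · rw [abs_mul, abs_of_nonneg (hG.trans_nonneg hε hc _ _)]
    exact mul_le_mul_of_nonneg_left (hψ _ _ (hG.mem_N.1 hy)) (hG.trans_nonneg hε hc _ _)
  · rw [← Finset.sum_mul, hG.sum_trans hε hc, one_mul]

theorem QT.D_tau (hG : QT G) (γ : Γ) (c : G.edgeSet → ℝ) (ψ : Γ × R → Γ × R → ℝ) (x : Γ × R) :
    hG.D (hG.tau γ c) (fun a b => ψ (sh γ a) (sh γ b)) x = hG.D c ψ (sh γ x) := by
  unfold QT.D
  rw [hG.sum_N_sh]
  simp only [hG.trans_tau]

theorem Step.quenched (S : Step G ε K) (hG : QT G) (hε : 0 < ε) (hK : ε ≤ K) {C : ℝ} (n : ℕ) :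
    ∀ (z : (G.edgeSet → ℝ) × R) (ψ : Γ × R → Γ × R → ℝ), (∀ x y, G.Adj x y → |ψ x y| ≤ C) →
      ∫ u, ψ (S.pos hG n (z, u)) (S.pos hG (n + 1) (z, u)) ∂seqM volume =
        ∫ u, hG.D (cl ε K z.1) ψ (S.pos hG n (z, u)) ∂seqM volume := by
  induction n with
  | zero =>
    intro z ψ hψ
    have h1 := integral_uncons volume (fun p : I × (ℕ → I) => ψ (1, z.2) (S.f (z, p.1)))
      ((Measurable.of_discrete (f := ψ (1, z.2))).comp
        (S.meas.comp (measurable_const.prodMk measurable_fst))) fun p => hψ _ _ (S.adj (z, p.1))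
    simp only [zero_add, S.pos_one]
    simp only [Step.pos, integral_const, probReal_univ, smul_eq_mul, one_mul] at h1 ⊢
    rw [h1, S.integral_f hG hε hK z (ψ (1, z.2))]
    rfl
  | succ n ih =>
    intro z ψ hψ
    have hm : ∀ m, Measurable fun p : I × (ℕ → I) =>
        sh (S.f (z, p.1)).1 (S.pos hG m (S.F hG (z, p.1), p.2)) := fun m =>
      (Measurable.of_discrete (f := fun q : Γ × (Γ × R) => sh q.1 q.2)).comp
        ((measurable_fst.comp (S.meas.comp (measurable_const.prodMk measurable_fst))).prodMk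
          ((S.measurable_pos hG m).comp (((S.measurable_F hG).comp
            (measurable_const.prodMk measurable_fst)).prodMk measurable_snd)))
    have h1 := integral_uncons volume (fun p : I × (ℕ → I) =>
      ψ (sh (S.f (z, p.1)).1 (S.pos hG n (S.F hG (z, p.1), p.2)))
        (sh (S.f (z, p.1)).1 (S.pos hG (n + 1) (S.F hG (z, p.1), p.2))))
      ((Measurable.of_discrete (f := fun q : (Γ × R) × (Γ × R) => ψ q.1 q.2)).comp
        ((hm n).prodMk (hm (n + 1)))) fun p => hψ _ _ (hG.inv _ _ _ (S.adj_pos hG n _))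
    have h2 := integral_uncons volume (fun p : I × (ℕ → I) =>
      hG.D (cl ε K z.1) ψ (sh (S.f (z, p.1)).1 (S.pos hG n (S.F hG (z, p.1), p.2))))
      ((Measurable.of_discrete (f := hG.D (cl ε K z.1) ψ)).comp (hm n))
      fun p => hG.abs_D hε (cl_mem hK _) hψ _
    refine h1.trans (Eq.trans ?_ h2.symm)
    refine integral_congr_ae (Eventually.of_forall fun t => ?_)
    have h3 := ih (S.F hG (z, t)) (fun a b => ψ (sh (S.f (z, t)).1 a) (sh (S.f (z, t)).1 b))
      fun x y h => hψ _ _ (hG.inv _ _ _ h)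
    refine h3.trans (integral_congr_ae (Eventually.of_forall fun u => ?_))
    exact hG.D_tau (S.f (z, t)).1 (cl ε K z.1) ψ (S.pos hG n (S.F hG (z, t), u))

variable (ν : Measure ℝ) [IsProbabilityMeasure ν]

theorem QT.integral_Q (hG : QT G) (hε : 0 < ε) (hK : ε ≤ K) {g : (G.edgeSet → ℝ) × R → ℝ}
    (hg : Measurable g) {C : ℝ} (hC : ∀ z, |g z| ≤ C) :
    ∫ z, g z ∂hG.Q ε K ν = ∑ r, ∫ c, hG.pi (cl ε K c) (1, r) * g (c, r) ∂env G ν := by
  have hpi : ∀ z : (G.edgeSet → ℝ) × R, 0 ≤ hG.pi (cl ε K z.1) (1, z.2) := fun z =>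
    hε.le.trans (hG.le_pi hε (cl_mem hK _) _)
  rw [QT.Q, integral_withDensity_eq_integral_toReal_smul hG.measurable_piz.ennreal_ofReal
    (Eventually.of_forall fun _ => ofReal_lt_top)]
  simp only [ENNReal.toReal_ofReal (hpi _), smul_eq_mul]
  rw [integral_prod_symm, integral_count]
  refine (integrable_const ((∑ r, ((hG.N (1, r)).card : ℝ) * K) * C)).mono'
    (hG.measurable_piz.mul hg).aestronglyMeasurable (Eventually.of_forall fun z => ?_)
  rw [Real.norm_eq_abs, abs_mul, abs_of_nonneg (hpi z)]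
  refine mul_le_mul ((hG.pi_le (cl_mem hK _) _).trans ?_) (hC z) (abs_nonneg _)
    (Finset.sum_nonneg fun r _ => mul_nonneg (Nat.cast_nonneg _) (hε.le.trans hK))
  exact Finset.single_le_sum (f := fun r => ((hG.N (1, r)).card : ℝ) * K)
    (fun r _ => mul_nonneg (Nat.cast_nonneg _) (hε.le.trans hK)) (Finset.mem_univ z.2)

theorem Step.drift (S : Step G ε K) (hG : QT G) (hε : 0 < ε) (hK : ε ≤ K)
    {Φ : (G.edgeSet → ℝ) → Γ × R → ℝ} (hΦ : ∀ v, Measurable fun c => Φ c v)
    {β : (G.edgeSet → ℝ) → R → ℝ} (hβ : ∀ r, Measurable fun c => β c r) {C : ℝ}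
    (h1 : ∀ c, (∀ e, c e ∈ Icc ε K) → ∀ x y, G.Adj x y → |Φ c y - Φ c x| ≤ C)
    (h2 : ∀ c, (∀ e, c e ∈ Icc ε K) → ∀ r, |Φ c (1, r)| ≤ C)
    (h3 : ∀ c, (∀ e, c e ∈ Icc ε K) → ∀ r, |β c r| ≤ C)
    (h4 : ∀ c, (∀ e, c e ∈ Icc ε K) → ∀ x,
      β (hG.tau x.1 c) x.2 ≤ ∑ y ∈ hG.N x, cond G c x y * (Φ c y - Φ c x)) (n : ℕ) :
    n * (∑ r, ∫ c, β (cl ε K c) r ∂env G ν) - C * (hG.Q ε K ν).real univ ≤
      ∫ ω, Φ (cl ε K ω.1.1) (S.pos hG n ω) ∂(hG.Q ε K ν).prod (seqM volume) := by
  haveI := hG.finite_Q ν hK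
  have hb : ∀ {g : ((G.edgeSet → ℝ) × R) × (ℕ → I) → ℝ}, Measurable g → ∀ C : ℝ,
      (∀ p, |g p| ≤ C) → Integrable g ((hG.Q ε K ν).prod (seqM volume)) := fun hg C hC =>
    (integrable_const C).mono' hg.aestronglyMeasurable (Eventually.of_forall hC)
  have hΦ' : Measurable fun q : (G.edgeSet → ℝ) × (Γ × R) => Φ q.1 q.2 :=
    measurable_from_prod_countable_left hΦ
  have hm : ∀ n, Measurable fun ω : ((G.edgeSet → ℝ) × R) × (ℕ → I) =>
      Φ (cl ε K ω.1.1) (S.pos hG n ω) := fun n =>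
    hΦ'.comp (((measurable_cl ε K).comp (measurable_fst.comp measurable_fst)).prodMk
      (S.measurable_pos hG n))
  have hbd : ∀ (n : ℕ) ω, |Φ (cl ε K ω.1.1) (S.pos hG n ω)| ≤ C * (n + 1) := by
    intro n ω
    induction n with
    | zero => simpa [Step.pos] using h2 _ (cl_mem hK _) _
    | succ n ih =>
      have := h1 _ (cl_mem hK ω.1.1) _ _ (S.adj_pos hG n ω)
      rw [abs_le] at this ih ⊢
      push_cast
      constructor <;> nlinarith
  have hi : ∀ n, Integrable (fun ω : ((G.edgeSet → ℝ) × R) × (ℕ → I) =>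
      Φ (cl ε K ω.1.1) (S.pos hG n ω)) ((hG.Q ε K ν).prod (seqM volume)) := fun n =>
    hb (hm n) _ (hbd n)
  set b : (G.edgeSet → ℝ) × R → ℝ := fun z => β (cl ε K z.1) z.2 / hG.pi (cl ε K z.1) (1, z.2)
    with hbdef
  have hbm : Measurable b := (measurable_from_prod_countable_left fun r =>
    (hβ r).comp (measurable_cl ε K)).div hG.measurable_piz
  have hbb : ∀ z, |b z| ≤ C / ε := by
    intro z
    have h5 := hG.le_pi hε (cl_mem hK z.1) (1, z.2)
    rw [hbdef, abs_div, abs_of_pos (hε.trans_le h5)]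
    exact div_le_div₀ ((abs_nonneg _).trans (h3 _ (cl_mem hK z.1) z.2))
      (h3 _ (cl_mem hK z.1) z.2) hε h5
  have hbQ : ∫ z, b z ∂hG.Q ε K ν = ∑ r, ∫ c, β (cl ε K c) r ∂env G ν := by
    rw [hG.integral_Q ν hε hK hbm hbb]
    refine Finset.sum_congr rfl fun r _ => integral_congr_ae (Eventually.of_forall fun c => ?_)
    exact mul_div_cancel₀ _ (hε.trans_le (hG.le_pi hε (cl_mem hK c) (1, r))).ne'
  have hT := (mp_skew (S.mp_F hG ν hε hK))
  have hstep : ∀ n, ∑ r, ∫ c, β (cl ε K c) r ∂env G ν ≤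
      ∫ ω, Φ (cl ε K ω.1.1) (S.pos hG (n + 1) ω) ∂(hG.Q ε K ν).prod (seqM volume) -
        ∫ ω, Φ (cl ε K ω.1.1) (S.pos hG n ω) ∂(hG.Q ε K ν).prod (seqM volume) := by
    intro n
    have hbn : Measurable fun ω : ((G.edgeSet → ℝ) × R) × (ℕ → I) =>
        b ((skew (S.F hG))^[n] ω).1 :=
      hbm.comp (measurable_fst.comp ((S.measurable_skew hG).iterate n))
    have e1 : ∫ ω, b ((skew (S.F hG))^[n] ω).1 ∂(hG.Q ε K ν).prod (seqM volume) =
        ∫ z, b z ∂hG.Q ε K ν := by
      have h6 : MeasurePreserving (fun ω : ((G.edgeSet → ℝ) × R) × (ℕ → I) =>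
          ((skew (S.F hG))^[n] ω).1) ((hG.Q ε K ν).prod (seqM volume)) (hG.Q ε K ν) :=
        measurePreserving_fst.comp (hT.iterate n)
      conv_rhs => rw [← h6.map_eq]
      rw [integral_map h6.measurable.aemeasurable hbm.aestronglyMeasurable]
    have i1 : Integrable (fun ω : ((G.edgeSet → ℝ) × R) × (ℕ → I) =>
        Φ (cl ε K ω.1.1) (S.pos hG (n + 1) ω) - Φ (cl ε K ω.1.1) (S.pos hG n ω))
        ((hG.Q ε K ν).prod (seqM volume)) := (hi (n + 1)).sub (hi n)
    have i2 := hb hbn _ fun ω => hbb _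
    rw [← integral_sub (hi _) (hi _), ← hbQ, ← e1, integral_prod _ i1, integral_prod _ i2]
    refine integral_mono i2.integral_prod_left i1.integral_prod_left fun z => ?_
    have hq := S.quenched hG hε hK n z (fun x y => Φ (cl ε K z.1) y - Φ (cl ε K z.1) x)
      (h1 _ (cl_mem hK _))
    refine le_trans ?_ hq.ge
    refine integral_mono ((integrable_const (C / ε)).mono'
      (hbn.comp measurable_prodMk_left).aestronglyMeasurable (Eventually.of_forall fun u => hbb _))
      ((integrable_const C).mono' ((Measurable.of_discrete (f := hG.D (cl ε K z.1) _)).comp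
        ((S.measurable_pos hG n).comp measurable_prodMk_left)).aestronglyMeasurable
        (Eventually.of_forall fun u => hG.abs_D hε (cl_mem hK _) (h1 _ (cl_mem hK _)) _))
      fun u => ?_
    simp only [S.iter_fst, hbdef, hG.cl_tau, hG.pi_tau, sh_base, QT.D, hG.trans_eq]
    have h7 := hε.trans_le (hG.le_pi hε (cl_mem hK z.1) (S.pos hG n (z, u)))
    rw [div_le_iff₀ h7, Finset.sum_mul]
    refine (h4 _ (cl_mem hK z.1) _).trans (le_of_eq (Finset.sum_congr rfl fun y _ => ?_))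
    field_simp
  induction n with
  | zero =>
    have h5 : ∫ _ω, -C ∂(hG.Q ε K ν).prod (seqM (volume : Measure I)) ≤
        ∫ ω, Φ (cl ε K ω.1.1) (S.pos hG 0 ω) ∂(hG.Q ε K ν).prod (seqM volume) :=
      integral_mono (integrable_const _) (hi 0) fun ω => by
        have := abs_le.1 (hbd 0 ω)
        simpa using this.1
    rw [integral_const, ← univ_prod_univ, measureReal_prod_prod] at h5
    simp only [probReal_univ, mul_one, smul_eq_mul] at h5
    simp only [Nat.cast_zero, zero_mul]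
    linarith
  | succ n ih =>
    have := hstep n
    push_cast
    linarith

end Pool.Agent.H426Z.RC
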