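import Mathlib
import Pool.Agent.H426Z.RC.W3

/-!
# The speed exists and is bounded through drift estimates
-/

open MeasureTheory ProbabilityTheory Filter Topology ENNReal Set unitInterval

set_option linter.unusedSectionVars false

namespace Pool.Agent.H426Z.RC

variable {Γ R : Type} [Group Γ] [Countable Γ] [Infinite Γ] [Fintype R] [MeasurableSpace Γ]
  [DiscreteMeasurableSpace Γ] [MeasurableSpace R] [DiscreteMeasurableSpace R]
  {G : SimpleGraph (Γ × R)} {ε K : ℝ} (ν : Measure ℝ) [IsProbabilityMeasure ν]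

theorem ae_env (hν : ∀ᵐ t ∂ν, t ∈ Icc ε K) : ∀ᵐ c ∂env G ν, ∀ e, c e ∈ Icc ε K :=
  ae_all_iff.2 fun e =>
    (measurePreserving_eval_infinitePi (fun _ : G.edgeSet => ν) e).quasiMeasurePreserving.ae hν

theorem integral_eval (e : G.edgeSet) : ∫ c, c e ∂env G ν = ∫ t, t ∂ν := by
  have h := measurePreserving_eval_infinitePi (fun _ : G.edgeSet => ν) e
  conv_rhs => rw [← h.map_eq]
  rw [integral_map h.measurable.aemeasurable measurable_id'.aestronglyMeasurable]

theorem integrable_eval (hν : ∀ᵐ t ∂ν, t ∈ Icc ε K) (e : G.edgeSet) :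
    Integrable (fun c : G.edgeSet → ℝ => c e) (env G ν) := by
  refine (integrable_const (max |ε| |K|)).mono' (measurable_pi_apply e).aestronglyMeasurable ?_
  filter_upwards [ae_env (G := G) ν hν] with c hc
  exact abs_le_max_abs_abs (hc e).1 (hc e).2

theorem QT.main (hG : QT G) (hε : 0 < ε) (hK : ε ≤ K) (hν : ∀ᵐ t ∂ν, t ∈ Icc ε K) :
    ∃ v : ℝ, (∀ r, ∀ᵐ c ∂env G ν, (∃ P, IsWalkLaw G c (1, r) P) ∧ ∀ P, IsWalkLaw G c (1, r) P →
      ∀ᵐ X ∂P, Tendsto (fun n : ℕ => (G.dist (X 0) (X n) : ℝ) / n) atTop (𝓝 v)) ∧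
      ∀ (Φ : (G.edgeSet → ℝ) → Γ × R → ℝ) (β : (G.edgeSet → ℝ) → R → ℝ) (A C : ℝ),
        (∀ v, Measurable fun c => Φ c v) → (∀ r, Measurable fun c => β c r) →
        (∀ c, (∀ e, c e ∈ Icc ε K) → ∀ x y, G.Adj x y → |Φ c y - Φ c x| ≤ C) →
        (∀ c, (∀ e, c e ∈ Icc ε K) → ∀ r, |Φ c (1, r)| ≤ C) →
        (∀ c, (∀ e, c e ∈ Icc ε K) → ∀ r, |β c r| ≤ C) →
        (∀ c, (∀ e, c e ∈ Icc ε K) → ∀ x,
          β (hG.tau x.1 c) x.2 ≤ ∑ y ∈ hG.N x, cond G c x y * (Φ c y - Φ c x)) →
        (∀ c, (∀ e, c e ∈ Icc ε K) → ∀ r x, Φ c x ≤ A * G.dist (1, r) x + C) →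
        ∑ r, ∫ c, β c r ∂env G ν ≤ A * v * ((∑ r, ((hG.N (1, r)).card : ℝ)) * ∫ t, t ∂ν) := by
  obtain ⟨S⟩ := hG.exists_step hε hK
  haveI := hG.finite_Q ν hK
  obtain ⟨v, hv⟩ := kingman (S.ergodic hG ν hε hK) (S.measurable_d hG)
    (fun n ω => Nat.cast_nonneg _) (S.d_le hG) (S.d_add hG)
  refine ⟨v, fun r => ?_, fun Φ β A C hΦ hβ h1 h2 h3 h4 h5 => ?_⟩
  · filter_upwards [(hG.ae_Q ν hε hK).1 (Measure.ae_ae_of_ae_prod hv), ae_env (G := G) ν hν]
      with c hc hc'
    have hw := S.isWalkLaw hG hε hK (c, r)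
    simp only [cl_eq hc'] at hw
    refine ⟨⟨_, hw⟩, fun P hP => ?_⟩
    rw [walkLaw_unique hP hw]
    have hm : Measurable fun (u : ℕ → I) n => S.pos hG n ((c, r), u) :=
      measurable_pi_lambda _ fun n => (S.measurable_pos hG n).comp measurable_prodMk_left
    refine (ae_map_iff hm.aemeasurable (measurableSet_tendsto _ fun n => ?_)).2 (hc r)
    have h := (Measurable.of_discrete
      (f := fun q : (Γ × R) × (Γ × R) => (G.dist q.1 q.2 : ℝ) / n)).comp
      ((measurable_pi_apply (X := fun _ : ℕ => Γ × R) 0).prodMk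
        (measurable_pi_apply (X := fun _ : ℕ => Γ × R) n))
    simpa only [Function.comp_def] using h
  · set m := (hG.Q ε K ν).prod (seqM (volume : Measure I)) with hm
    set Zq := (hG.Q ε K ν).real univ with hZq
    have hmZ : m.real univ = Zq := by
      rw [← univ_prod_univ, measureReal_prod_prod, probReal_univ (μ := seqM volume), mul_one]
    have hZ : Zq = (∑ r, ((hG.N (1, r)).card : ℝ)) * ∫ t, t ∂ν := by
      have := hG.integral_Q ν hε hK (g := fun _ => 1) measurable_const (C := 1) (by simp)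
      rw [integral_const, smul_eq_mul, mul_one] at this
      rw [hZq, this, Finset.sum_mul]
      refine Finset.sum_congr rfl fun r _ => ?_
      have e : ∀ᵐ c ∂env G ν, hG.pi (cl ε K c) (1, r) * 1 =
          ∑ y ∈ (hG.N (1, r)).attach, c ⟨s((1, r), y.1), hG.mem_N.1 y.2⟩ := by
        filter_upwards [ae_env (G := G) ν hν] with c hc
        rw [cl_eq hc, mul_one, QT.pi, ← Finset.sum_attach]
        exact Finset.sum_congr rfl fun y _ => cond_adj _ _
      rw [integral_congr_ae e, integral_finsetSum _ fun y _ => integrable_eval ν hν _]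
      simp [integral_eval]
    have hβe : ∑ r, ∫ c, β (cl ε K c) r ∂env G ν = ∑ r, ∫ c, β c r ∂env G ν := by
      refine Finset.sum_congr rfl fun r _ => integral_congr_ae ?_
      filter_upwards [ae_env (G := G) ν hν] with c hc
      rw [cl_eq hc]
    have hdi : ∀ n : ℕ, Integrable (S.d hG n) m := fun n =>
      (integrable_const (n : ℝ)).mono' (S.measurable_d hG n).aestronglyMeasurable
        (Eventually.of_forall fun ω => by
          rw [Real.norm_eq_abs, abs_of_nonneg (Nat.cast_nonneg _)]; exact S.d_le hG n ω)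
    have hlim : Tendsto (fun n : ℕ => ∫ ω, S.d hG n ω / n ∂m) atTop (𝓝 (∫ _ω, v ∂m)) := by
      refine tendsto_integral_of_dominated_convergence (fun _ => 1)
        (fun n => ((S.measurable_d hG n).div_const _).aestronglyMeasurable) (integrable_const _)
        (fun n => Eventually.of_forall fun ω => ?_) hv
      rw [Real.norm_eq_abs, abs_of_nonneg (div_nonneg (Nat.cast_nonneg _) (Nat.cast_nonneg _))]
      exact div_le_one_of_le₀ (S.d_le hG n ω) (Nat.cast_nonneg _)
    rw [integral_const, hmZ, smul_eq_mul] at hlim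
    have hle : ∀ n : ℕ, n * (∑ r, ∫ c, β c r ∂env G ν) ≤ A * ∫ ω, S.d hG n ω ∂m + 2 * C * Zq := by
      intro n
      have h6 := S.drift ν hG hε hK hΦ hβ h1 h2 h3 h4 n
      rw [hβe] at h6
      have h7 : ∫ ω, Φ (cl ε K ω.1.1) (S.pos hG n ω) ∂m ≤ ∫ ω, (A * S.d hG n ω + C) ∂m := by
        by_cases hi : Integrable (fun ω : ((G.edgeSet → ℝ) × R) × (ℕ → I) =>
            Φ (cl ε K ω.1.1) (S.pos hG n ω)) m
        · exact integral_mono hi (((hdi n).const_mul A).add (integrable_const C)) fun ω =>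
            h5 _ (cl_mem hK _) _ _
        · exfalso
          refine hi ((integrable_const (C * (n + 1))).mono' ?_ (Eventually.of_forall fun ω => ?_))
          · have hΦ' : Measurable fun q : (G.edgeSet → ℝ) × (Γ × R) => Φ q.1 q.2 :=
              measurable_from_prod_countable_left hΦ
            exact (hΦ'.comp (((measurable_cl ε K).comp (measurable_fst.comp measurable_fst)).prodMk
              (S.measurable_pos hG n))).aestronglyMeasurable
          · clear hi h6
            rw [Real.norm_eq_abs]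
            induction n with
            | zero => simpa [Step.pos] using h2 _ (cl_mem hK _) _
            | succ n ih =>
              have := h1 _ (cl_mem hK ω.1.1) _ _ (S.adj_pos hG n ω)
              rw [abs_le] at this ih ⊢
              push_cast
              constructor <;> nlinarith
      rw [integral_add ((hdi n).const_mul A) (integrable_const C), integral_const_mul,
        integral_const, hmZ, smul_eq_mul] at h7
      linarith
    rw [← hZ]
    have hlim2 : Tendsto (fun n : ℕ => A * (∫ ω, S.d hG n ω / n ∂m) + 2 * C * Zq / n) atTop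
        (𝓝 (A * (Zq * v) + 0)) :=
      (hlim.const_mul A).add (tendsto_const_div_atTop_nhds_zero_nat _)
    have := ge_of_tendsto hlim2 ((eventually_gt_atTop 0).mono fun n hn => by
      have hn' : (0 : ℝ) < n := by exact_mod_cast hn
      change ∑ r, ∫ c, β c r ∂env G ν ≤ _
      rw [integral_div, ← mul_div_assoc, ← add_div, le_div_iff₀ hn', mul_comm]
      exact hle n)
    linarith

/-- The uniform root. -/
noncomputable def root (Γ R : Type) [Group Γ] [Fintype R] [MeasurableSpace Γ] [MeasurableSpace R] :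
    Measure (Γ × R) :=
  (Fintype.card R : ℝ≥0∞)⁻¹ • (Measure.count : Measure R).map fun r => ((1 : Γ), r)

theorem lintegral_root (g : Γ × R → ℝ≥0∞) :
    ∫⁻ o, g o ∂root Γ R = (Fintype.card R : ℝ≥0∞)⁻¹ * ∑' r, g (1, r) := by
  rw [root, lintegral_smul_measure, lintegral_map Measurable.of_discrete Measurable.of_discrete,
    lintegral_count, smul_eq_mul]

theorem root_prob [Nonempty R] : IsProbabilityMeasure (root Γ R) := by
  refine ⟨?_⟩
  rw [← setLIntegral_one, Measure.restrict_univ, lintegral_root, tsum_fintype]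
  simp [ENNReal.inv_mul_cancel]

theorem ae_root {P : Γ × R → Prop} (h : ∀ r, P (1, r)) : ∀ᵐ o ∂root Γ R, P o := by
  refine Measure.ae_smul_measure ?_ _
  exact (ae_map_iff Measurable.of_discrete.aemeasurable MeasurableSet.of_discrete).2
    (Eventually.of_forall h)

theorem QT.massTransport (hG : QT G) : MassTransport G (root Γ R) := by
  intro f hf
  rw [lintegral_root, lintegral_root, ← tsum_swap fun γ r s => f (γ, r) (1, s)]
  congr 1
  refine tsum_congr fun r => tsum_congr fun y => ?_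
  have := hf (hG.iso y.1⁻¹) (1, r) y
  simpa [sh] using this.symm

theorem QT.cheeger (hG : QT G) (Φ : Γ × R → ℝ) {C : ℝ} (hC : 0 < C)
    (h1 : ∀ x y, G.Adj x y → Φ y - Φ x ≤ C) (h2 : ∀ x, 1 ≤ ∑ y ∈ hG.N x, (Φ y - Φ x))
    (S : Finset (Γ × R)) :
    C⁻¹ * S.card ≤ {e : (Γ × R) × (Γ × R) | e.1 ∈ S ∧ e.2 ∉ S ∧ G.Adj e.1 e.2}.ncard := by
  classical
  have e : {e : (Γ × R) × (Γ × R) | e.1 ∈ S ∧ e.2 ∉ S ∧ G.Adj e.1 e.2} =
      (S.sigma fun x => (hG.N x).filter (· ∉ S)).map
        ⟨fun p => (p.1, p.2), fun p q h => by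
          obtain ⟨h1, h2⟩ := Prod.mk.inj h
          exact Sigma.ext h1 (heq_of_eq h2)⟩ := by
    ext ⟨x, y⟩
    simp only [Set.mem_ofPred_eq, Finset.coe_map, Function.Embedding.coeFn_mk, mem_image,
      Finset.mem_coe, Finset.mem_sigma, Finset.mem_filter, QT.mem_N, Prod.mk.injEq]
    constructor
    · rintro ⟨a, b, c⟩
      exact ⟨⟨x, y⟩, ⟨a, c, b⟩, rfl, rfl⟩
    · rintro ⟨⟨a, b⟩, ⟨h1, h2, h3⟩, rfl, rfl⟩
      exact ⟨h1, h3, h2⟩
  rw [e, Set.ncard_coe_finset, Finset.card_map, Finset.card_sigma, inv_mul_le_iff₀ hC]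
  have h3 : ∑ x ∈ S, ∑ y ∈ (hG.N x).filter (· ∈ S), (Φ y - Φ x) = 0 := by
    have e2 : ∀ x, ∑ y ∈ (hG.N x).filter (· ∈ S), (Φ y - Φ x) =
        ∑ y ∈ S, if G.Adj x y then Φ y - Φ x else 0 := by
      intro x
      rw [← Finset.sum_filter]
      refine Finset.sum_congr ?_ fun _ _ => rfl
      ext y
      simp [and_comm]
    simp_rw [e2]
    have e3 : ∑ x ∈ S, ∑ y ∈ S, (if G.Adj x y then Φ y - Φ x else 0) =
        -∑ x ∈ S, ∑ y ∈ S, (if G.Adj x y then Φ y - Φ x else 0) := by
      conv_lhs => rw [Finset.sum_comm]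
      rw [← Finset.sum_neg_distrib]
      refine Finset.sum_congr rfl fun x _ => ?_
      rw [← Finset.sum_neg_distrib]
      refine Finset.sum_congr rfl fun y _ => ?_
      by_cases h : G.Adj x y
      · simp [h, h.symm]
      · simp [h, show ¬ G.Adj y x from fun h' => h h'.symm]
    linarith
  calc (S.card : ℝ) = ∑ x ∈ S, (1 : ℝ) := by simp
    _ ≤ ∑ x ∈ S, ∑ y ∈ hG.N x, (Φ y - Φ x) := Finset.sum_le_sum fun x _ => h2 x
    _ = ∑ x ∈ S, ∑ y ∈ (hG.N x).filter (· ∉ S), (Φ y - Φ x) := by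
      simp_rw [← Finset.sum_filter_add_sum_filter_not (hG.N _) (· ∈ S), Finset.sum_add_distrib, h3,
        zero_add]
    _ ≤ ∑ x ∈ S, ∑ y ∈ (hG.N x).filter (· ∉ S), C :=
      Finset.sum_le_sum fun x _ => Finset.sum_le_sum fun y hy =>
        h1 _ _ (hG.mem_N.1 (Finset.mem_filter.1 hy).1)
    _ = _ := by
      push_cast
      rw [Finset.mul_sum]
      exact Finset.sum_congr rfl fun x _ => by simp [mul_comm]

end Pool.Agent.H426Z.RC
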