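import Mathlib
import Pool.Agent.H426Z.RC.Ex1
import Pool.Agent.H426Z.RC.W4

/-!
# The three drift estimates
-/

open FreeGroup Sum MeasureTheory Set

set_option linter.unusedSectionVars false

namespace Pool.Agent.H426Z.RC

variable {A B K : Type} [DecidableEq A] [DecidableEq B] [Fintype A] [Fintype B] [Fintype K]
  [Nonempty A] [Nonempty B] {k0 : K} {L : ℕ}

theorem sum_p (f : Lt A B → ℝ) : ∑ p : Lt A B × K, f p.1 = Fintype.card K * ∑ t, f t := by
  rw [Fintype.sum_prod_type, Finset.mul_sum]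
  simp

theorem pop_eq {g : Fg A B} {t₀ t : Lt A B} (h0 : ∀ t ≠ t₀, (lt t * g).toWord = t :: g.toWord)
    (h1 : g.toWord = iv t :: (lt t * g).toWord) : t = t₀ := by
  by_contra hne
  have h2 := congrArg List.length h1
  rw [h0 t hne] at h2
  simp at h2
  omega

/-- Word length. -/
noncomputable def len (g : Fg A B) : ℝ := g.toWord.length

/-- The function giving the isoperimetric inequality. -/
noncomputable def Phi1 (v : Fg A B × Rr A K) : ℝ := avg len v - if v.2.isRight then 1 / 2 else 0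

theorem Phi1_lip (hL : 1 ≤ L) {x y : Fg A B × Rr A K} (h : (Gr A B k0 L).Adj x y) :
    |Phi1 y - Phi1 x| ≤ L + 3 := by
  have := avg_lip hL (F := len) zero_le_one lip_len h
  unfold Phi1
  rw [abs_le] at this ⊢
  split_ifs <;> constructor <;> linarith

theorem Phi1_drift (hG : QT (Gr A B k0 L))
    (hk : 1 + (om A B L : ℝ) * L ≤ Fintype.card K * (2 * Fintype.card B - 2))
    (v : Fg A B × Rr A K) : 1 ≤ ∑ y ∈ hG.N v, (Phi1 y - Phi1 v) := by
  obtain ⟨x, i | m⟩ := v
  · have h1 := sum_main hG x i (fun y => Phi1 y - Phi1 (x, inl i)) (M := L) (Nat.cast_nonneg L)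
      fun w hw => by simpa [Phi1, avg] using lip_W (F := len) zero_le_one lip_len hw x⁻¹
    obtain ⟨t₀, h0⟩ := push_of_ne x⁻¹
    have h2 : ∑ p : Lt A B × K, ((if isB p.1 then 1 else 0) - if p.1 = t₀ then 2 else 0 : ℝ) ≤
        ∑ p, (Phi1 (nbr x i p) - Phi1 (x, inl i)) := by
      refine Finset.sum_le_sum fun p _ => ?_
      have h3 := avg_nbr len x i p
      have h4 : (nbr x i p).2.isRight = !isB p.1 := by
        obtain ⟨⟨a | b, _ | _⟩, j⟩ := p <;> rfl
      have h5 : Phi1 (x, inl i) = len x⁻¹ := by simp [Phi1, avg]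
      rw [h5, Phi1, h4]
      rcases mul_cases p.1 x⁻¹ with h6 | h6
      · have h7 : len (lt p.1 * x⁻¹) = len x⁻¹ + 1 := by simp only [len, h6]; simp
        rw [h7] at h3
        by_cases hb : isB p.1 = true <;> simp [hb] at h3 ⊢ <;> split_ifs <;> linarith
      · have h7 : len x⁻¹ = len (lt p.1 * x⁻¹) + 1 := by
          unfold len; rw [h6]; simp
        rw [if_pos (pop_eq h0 h6)]
        by_cases hb : isB p.1 = true <;> simp [hb] at h3 ⊢ <;> linarith
    rw [sum_p fun t => ((if isB t then 1 else 0) - if t = t₀ then 2 else 0 : ℝ),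
      Finset.sum_sub_distrib, sum_isB] at h2
    simp only [mul_one, mul_zero, add_zero, Finset.sum_ite_eq', Finset.mem_univ, if_true] at h2
    rw [abs_le] at h1
    linarith
  · rw [sum_mid]
    simp [Phi1, avg]
    linarith

/-- The potential for simple random walk. -/
noncomputable def UU (θ : ℝ) (L : ℕ) (g : Fg A B) : ℝ := pot θ g + len g / L

theorem UU_lip (hL : 1 ≤ L) {θ : ℝ} (h0 : 0 ≤ θ) (h1 : θ ≤ 1) (t : Lt A B) (g : Fg A B) :
    |UU θ L (lt t * g) - UU θ L g| ≤ 3 := by
  have a := lip_ph t g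
  have b := lip_len t g
  have hL' : (1 : ℝ) ≤ L := by exact_mod_cast hL
  have c : |len (lt t * g) / L - len g / L| ≤ 1 := by
    rw [← sub_div, abs_div, abs_of_pos (show (0 : ℝ) < L by linarith), div_le_one (by linarith)]
    exact b.trans hL'
  unfold UU pot
  rw [abs_le] at a c ⊢
  split_ifs <;> constructor <;> linarith

theorem UU_drift (hG : QT (Gr A B k0 L)) (hL : 1 ≤ L) {θ : ℝ} (h0 : 0 ≤ θ) (h1 : θ ≤ 1)
    (h : θ * Fintype.card A = 2 * Fintype.card B) (x : Fg A B) (i : K) :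
    ∑ y ∈ hG.N (x, inl i), (avg (UU θ L) y - avg (UU θ L) (x, inl i)) ≤
      Fintype.card K * (θ * (2 * Fintype.card B + 1) +
        (2 * Fintype.card B + Fintype.card A) / L) + om A B L * (3 * L) := by
  have h2 := sum_main hG x i (fun y => avg (UU θ L) y - avg (UU θ L) (x, inl i)) (M := 3 * L)
    (by positivity) fun w hw => by
      simpa [avg] using lip_W (F := UU θ L) (by norm_num) (UU_lip hL h0 h1) hw x⁻¹
  have h3 : ∑ p, (avg (UU θ L) (nbr x i p) - avg (UU θ L) (x, inl i)) ≤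
      ∑ p : Lt A B × K, ((if isB p.1 then 1 else 1 / 2) * (pot θ (lt p.1 * x⁻¹) - pot θ x⁻¹) +
        if isB p.1 then 1 / (L : ℝ) else 1 / 2 / L) := by
    refine Finset.sum_le_sum fun p _ => ?_
    have h4 := avg_nbr (UU θ L) x i p
    have h5 : avg (UU θ L) (x, (inl i : Rr A K)) = UU θ L x⁻¹ := rfl
    have hL' : (0 : ℝ) < L := by exact_mod_cast hL
    have h6 : len (lt p.1 * x⁻¹) / L - len x⁻¹ / L ≤ 1 / L := by
      rw [← sub_div]
      gcongr
      exact (abs_le.1 (lip_len p.1 x⁻¹)).2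
    rw [h5, h4]
    unfold UU
    have h7 : (1 : ℝ) / 2 / L = 1 / 2 * (1 / L) := by ring
    split_ifs <;> linarith
  rw [sum_p fun t => ((if isB t then 1 else 1 / 2) * (pot θ (lt t * x⁻¹) - pot θ x⁻¹) +
    if isB t then 1 / (L : ℝ) else 1 / 2 / L), Finset.sum_add_distrib, sum_isB] at h3
  have h4 := pot_drift h0 h x⁻¹
  have h5 : (Fintype.card K : ℝ) * (∑ t : Lt A B, (if isB t then 1 else 1 / 2) *
      (pot θ (lt t * x⁻¹) - pot θ x⁻¹)) ≤ Fintype.card K * (θ * (2 * Fintype.card B + 1)) :=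
    mul_le_mul_of_nonneg_left h4 (Nat.cast_nonneg _)
  have h6 : (2 * Fintype.card B + Fintype.card A : ℝ) / L =
    2 * Fintype.card B * (1 / L) + 2 * Fintype.card A * (1 / 2 / L) := by ring
  rw [abs_le] at h2
  rw [h6]
  nlinarith

/-- The potential for the walk among random conductances. -/
noncomputable def Phi3 (k0 : K) (L : ℕ) (c : (Gr A B k0 L).edgeSet → ℝ) : Fg A B × Rr A K → ℝ
  | (x, inl _) => ps x⁻¹.toWord
  | (x, inr m) => if cond _ c (x, inl m.2.1) (x, inr m) ≤
      cond _ c (x, inr m) (x * (lt (la m.1))⁻¹, inl m.2.2) then ps (lt (la m.1) * x⁻¹).toWord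
      else ps x⁻¹.toWord

/-- The local drift bound. -/
noncomputable def b3 (k0 : K) (L : ℕ) (c : (Gr A B k0 L).edgeSet → ℝ) : Fg A B × Rr A K → ℝ
  | (x, inl i) => ∑ p : Lt A B × K, (if isB p.1 then cond _ c (x, inl i) (nbr x i p) else
      -min (cond _ c (x, inl i) (nbr x i p)) (cond _ c (nbr x i p) (x * (lt p.1)⁻¹, inl p.2))) -
      2 * Fintype.card K - om A B L * L
  | (x, inr m) => -min (cond _ c (x, inl m.2.1) (x, inr m))
      (cond _ c (x, inr m) (x * (lt (la m.1))⁻¹, inl m.2.2))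

theorem measurable_Phi3 (v : Fg A B × Rr A K) : Measurable fun c => Phi3 k0 L c v := by
  obtain ⟨x, i | m⟩ := v
  · exact measurable_const
  · exact Measurable.ite (measurableSet_le (measurable_cond _ _) (measurable_cond _ _))
      measurable_const measurable_const

theorem measurable_b3 (v : Fg A B × Rr A K) : Measurable fun c => b3 k0 L c v := by
  obtain ⟨x, i | m⟩ := v
  · refine ((Finset.measurable_sum _ fun p _ => ?_).sub_const _).sub_const _
    split_ifs
    · exact measurable_cond _ _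
    · exact ((measurable_cond _ _).min (measurable_cond _ _)).neg
  · exact ((measurable_cond _ _).min (measurable_cond _ _)).neg

theorem b3_tau (hG : QT (Gr A B k0 L)) (c : (Gr A B k0 L).edgeSet → ℝ) (v : Fg A B × Rr A K) :
    b3 k0 L (hG.tau v.1 c) (1, v.2) = b3 k0 L c v := by
  obtain ⟨x, i | m⟩ := v
  · simp only [b3, hG.cond_tau, sh_nbr]
    simp [sh]
  · simp only [b3, hG.cond_tau]
    simp [sh]

theorem Phi3_near (c : (Gr A B k0 L).edgeSet → ℝ) (v : Fg A B × Rr A K) :
    |Phi3 k0 L c v - ps v.1⁻¹.toWord| ≤ 1 := by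
  obtain ⟨x, i | m⟩ := v
  · simp [Phi3]
  · simp only [Phi3]
    split_ifs
    · exact lip_ps _ _
    · simp

theorem Phi3_lip (hL : 1 ≤ L) (c : (Gr A B k0 L).edgeSet → ℝ) {x y : Fg A B × Rr A K}
    (h : (Gr A B k0 L).Adj x y) : |Phi3 k0 L c y - Phi3 k0 L c x| ≤ L + 2 := by
  obtain ⟨w, hw, e⟩ := adj_W hL h
  have h1 := Phi3_near c x
  have h2 := Phi3_near c y
  have h3 := lip_W (F := fun g => ps g.toWord) zero_le_one lip_ps hw x.1⁻¹
  rw [← e] at h3
  rw [abs_le] at h1 h2 h3 ⊢
  constructor <;> linarith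

theorem cond_le_one {V : Type} {G : SimpleGraph V} {δ : ℝ} {c : G.edgeSet → ℝ}
    (hc : ∀ e, c e ∈ Icc δ 1) (x y : V) : cond G c x y ≤ 1 := by
  by_cases h : G.Adj x y
  · rw [cond_adj _ h]; exact (hc _).2
  · rw [cond_nadj _ h]; exact zero_le_one

theorem b3_abs {δ : ℝ} (hδ : 0 < δ) {c : (Gr A B k0 L).edgeSet → ℝ} (hc : ∀ e, c e ∈ Icc δ 1)
    (v : Fg A B × Rr A K) :
    |b3 k0 L c v| ≤ Fintype.card (Lt A B × K) + 2 * Fintype.card K + om A B L * L + 1 := by
  have hm : ∀ x y z w, |-min (cond _ c x y) (cond _ c z w)| ≤ 1 := by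
    intro x y z w
    rw [abs_neg, abs_of_nonneg (le_min (cond_nonneg hδ hc _ _) (cond_nonneg hδ hc _ _))]
    exact (min_le_left _ _).trans (cond_le_one hc _ _)
  have a : (0 : ℝ) ≤ Fintype.card (Lt A B × K) := Nat.cast_nonneg _
  have b : (0 : ℝ) ≤ Fintype.card K := Nat.cast_nonneg _
  have d : (0 : ℝ) ≤ om A B L * L := by positivity
  obtain ⟨x, i | m⟩ := v
  · have h1 : |∑ p : Lt A B × K, (if isB p.1 then cond _ c (x, inl i) (nbr x i p) else
        -min (cond _ c (x, inl i) (nbr x i p)) (cond _ c (nbr x i p) (x * (lt p.1)⁻¹, inl p.2)))| ≤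
        Fintype.card (Lt A B × K) := by
      refine (Finset.abs_sum_le_sum_abs _ _).trans
        ((Finset.sum_le_sum (g := fun _ => 1) fun p _ => ?_).trans (by simp))
      split_ifs
      · rw [abs_of_nonneg (cond_nonneg hδ hc _ _)]; exact cond_le_one hc _ _
      · exact hm _ _ _ _
    simp only [b3]
    rw [abs_le] at h1 ⊢
    constructor <;> linarith
  · exact (hm _ _ _ _).trans (by linarith)

theorem min_bound {c₁ c₂ d : ℝ} (h : c₁ ≤ c₂) (h0 : 0 ≤ c₁) (hd : |d| ≤ 1) :
    -min c₁ c₂ ≤ c₁ * d := by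
  rw [min_eq_left h]
  nlinarith [(abs_le.1 hd).1]

theorem Phi3_drift (hG : QT (Gr A B k0 L)) {δ : ℝ} (hδ : 0 < δ)
    {c : (Gr A B k0 L).edgeSet → ℝ} (hc : ∀ e, c e ∈ Icc δ 1) (v : Fg A B × Rr A K) :
    b3 k0 L c v ≤ ∑ y ∈ hG.N v, cond _ c v y * (Phi3 k0 L c y - Phi3 k0 L c v) := by
  have hn := cond_nonneg hδ hc
  have hmin : ∀ x y z w, -min (cond _ c x y) (cond _ c z w) ≤ 0 := fun x y z w =>
    neg_nonpos.2 (le_min (hn _ _) (hn _ _))
  obtain ⟨x, i | m⟩ := v
  · have h1 := sum_main hG x i (fun y => cond _ c (x, inl i) y *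
        (Phi3 k0 L c y - Phi3 k0 L c (x, inl i))) (M := L) (Nat.cast_nonneg L) fun w hw => by
      have := lip_W (F := fun g => ps g.toWord) zero_le_one lip_ps hw x⁻¹
      rw [abs_mul, abs_of_nonneg (hn _ _)]
      refine mul_le_of_le_one_left (abs_nonneg _) (cond_le_one hc _ _) |>.trans ?_
      simpa only [Phi3, mul_inv_rev, inv_inv, one_mul] using this
    obtain ⟨t₀, h0⟩ := push_of_ne x⁻¹
    have h2 : ∑ p : Lt A B × K, ((if isB p.1 then cond _ c (x, inl i) (nbr x i p) else
        -min (cond _ c (x, inl i) (nbr x i p)) (cond _ c (nbr x i p) (x * (lt p.1)⁻¹, inl p.2))) -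
          if p.1 = t₀ then 2 else 0) ≤ ∑ p, cond _ c (x, inl i) (nbr x i p) *
        (Phi3 k0 L c (nbr x i p) - Phi3 k0 L c (x, inl i)) := by
      refine Finset.sum_le_sum fun p _ => ?_
      have h3 : (0 : ℝ) ≤ if p.1 = t₀ then 2 else 0 := by split_ifs <;> norm_num
      obtain ⟨⟨a | b, s⟩, j⟩ := p
      · have h4 := lip_ps (inl a, s) x⁻¹
        rw [if_neg (by simp [isB])]
        refine (sub_le_self _ h3).trans ?_
        cases s
        · simp only [nbr, Phi3]
          have e1 : x * (lt (inl a, false))⁻¹ * (lt (la a))⁻¹ = x := by simp [lt_false]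
          have e2 : lt (la a) * (x * (lt (inl a, false))⁻¹)⁻¹ = x⁻¹ := by simp [lt_false]
          rw [e1, e2]
          split_ifs with h5
          · simpa using hmin _ _ _ _
          · rw [cond_symm c _ (x, inl i), cond_symm c (_, inl j)] at h5
            refine min_bound (not_le.1 h5).le (hn _ _) ?_
            simpa only [mul_inv_rev, inv_inv] using h4
        · simp only [nbr, Phi3]
          split_ifs with h5
          · exact min_bound h5 (hn _ _) h4
          · simpa using hmin _ _ _ _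
      · rw [if_pos (by simp [isB])]
        simp only [nbr, Phi3, mul_inv_rev, inv_inv]
        have h5 := hn (x, inl i) (x * (lt (inr b, s))⁻¹, inl j)
        have h6 := cond_le_one hc (x, inl i) (x * (lt (inr b, s))⁻¹, inl j)
        rcases mul_cases (inr b, s) x⁻¹ with h7 | h7
        · rw [h7]
          simp only [ps, isB, isRight_inr, if_true] at h3 ⊢
          linarith
        · rw [if_pos (pop_eq h0 h7)]
          nlinarith [(abs_le.1 (lip_ps (inr b, s) x⁻¹)).1]
    rw [Finset.sum_sub_distrib, sum_p fun t => if t = t₀ then (2 : ℝ) else 0] at h2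
    simp only [Finset.sum_ite_eq', Finset.mem_univ, if_true] at h2
    simp only [b3]
    rw [abs_le] at h1
    linarith
  · rw [sum_mid, cond_symm c (x, inr m) (x, inl m.2.1)]
    have h4 := lip_ps (la m.1) x⁻¹
    simp only [b3, Phi3, mul_inv_rev, inv_inv]
    split_ifs with h5
    · have := min_bound h5 (hn _ _) ((abs_sub_comm _ _).trans_le h4)
      linarith
    · have := min_bound (not_le.1 h5).le (hn _ _) h4
      rw [min_comm] at this
      linarith

section integrals

variable {V : Type} {G : SimpleGraph V} (ν : Measure ℝ) [IsProbabilityMeasure ν]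

theorem int_min {x y z : V} (h1 : G.Adj x y) (h2 : G.Adj y z) (h : x ≠ z) :
    ∫ c, min (cond G c x y) (cond G c y z) ∂Measure.infinitePi (fun _ : G.edgeSet => ν) =
      ∫ p, min p.1 p.2 ∂ν.prod ν := by
  have hne : (⟨s(x, y), h1⟩ : G.edgeSet) ≠ ⟨s(y, z), h2⟩ := by
    intro e
    have := congrArg Subtype.val e
    simp only [Sym2.eq, Sym2.rel_iff', Prod.mk.injEq, Prod.swap_prod_mk] at this
    rcases this with ⟨h3, -⟩ | ⟨h3, -⟩
    · exact h1.ne h3
    · exact h h3
  rw [← Measure.infinitePi_map_eval_prod (P := fun _ : G.edgeSet => ν) hne,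
    integral_map (by fun_prop) (measurable_fst.min measurable_snd).aestronglyMeasurable]
  simp only [cond_adj _ h1, cond_adj _ h2]

end integrals

end Pool.Agent.H426Z.RC
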