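import Mathlib
import Pool.Agent.H426Z.RC.Ex2

/-!
# Comparison of the speeds
-/

open FreeGroup Sum MeasureTheory Set Filter Topology

set_option linter.unusedSectionVars false

namespace Pool.Agent.H426Z.RC

/-- The law of the conductances. -/
noncomputable def nu : Measure ℝ :=
  ENNReal.ofReal (1 / 200) • Measure.dirac 1 + ENNReal.ofReal (199 / 200) • Measure.dirac (1 / 40000)

instance nu_prob : IsProbabilityMeasure nu := ⟨by
  simp only [nu, Measure.coe_add, Measure.coe_smul, Pi.add_apply, Pi.smul_apply, measure_univ,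
    smul_eq_mul, mul_one]
  rw [← ENNReal.ofReal_add (by norm_num) (by norm_num)]
  norm_num⟩

theorem integral_nu (f : ℝ → ℝ) : ∫ t, f t ∂nu = 1 / 200 * f 1 + 199 / 200 * f (1 / 40000) := by
  rw [nu, integral_add_measure ((integrable_dirac (by simp)).smul_measure ENNReal.ofReal_ne_top)
    ((integrable_dirac (by simp)).smul_measure ENNReal.ofReal_ne_top), integral_smul_measure,
    integral_smul_measure, integral_dirac, integral_dirac, ENNReal.toReal_ofReal (by norm_num),
    ENNReal.toReal_ofReal (by norm_num), smul_eq_mul, smul_eq_mul]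

theorem ae_nu : ∀ᵐ t ∂nu, t ∈ Icc (1 / 40000 : ℝ) 1 := by
  rw [nu, ae_add_measure_iff]
  constructor <;> refine Measure.ae_smul_measure ?_ _ <;> rw [ae_dirac_eq] <;> norm_num

theorem integrable_nu : Integrable (fun t : ℝ => t) nu := by
  refine (integrable_const (1 : ℝ)).mono' measurable_id'.aestronglyMeasurable ?_
  filter_upwards [ae_nu] with t ht
  rw [Real.norm_eq_abs, abs_le]
  constructor <;> linarith [ht.1, ht.2]

theorem min_nu : ∫ p, min p.1 p.2 ∂nu.prod nu ≤ 1 / 20000 := by
  rw [integral_prod (fun p : ℝ × ℝ => min p.1 p.2)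
    ((integrable_nu.comp_fst nu).inf (integrable_nu.comp_snd nu))]
  simp only [integral_nu]
  norm_num [min_def]

theorem nu_ne (a : ℝ) : nu ≠ Measure.dirac a := by
  intro h
  have h1 := integral_nu fun t => t
  have h2 := integral_nu fun t => t ^ 2
  rw [h, integral_dirac] at h1 h2
  rw [h1] at h2
  norm_num at h2

variable {A B K : Type} [DecidableEq A] [DecidableEq B] [Fintype A] [Fintype B] [Fintype K]
  [Nonempty A] [Nonempty B] {k0 : K} {L : ℕ} [MeasurableSpace (Fg A B)]
  [DiscreteMeasurableSpace (Fg A B)] [MeasurableSpace (Rr A K)] [DiscreteMeasurableSpace (Rr A K)]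

theorem int_b3 : (Fintype.card K : ℝ) ^ 2 * (2 * Fintype.card B * (40199 / 8000000) - 2 -
    3 * Fintype.card A * (1 / 20000)) - Fintype.card K * (om A B L * L) ≤
    ∑ r, ∫ c, b3 k0 L c ((1 : Fg A B), r) ∂env (Gr A B k0 L) nu := by
  have hi : ∀ {x y}, (Gr A B k0 L).Adj x y →
      Integrable (fun c => cond (Gr A B k0 L) c x y) (env (Gr A B k0 L) nu) := fun h => by
    simp only [cond_adj _ h]
    exact integrable_eval nu ae_nu _
  have hc : ∀ {x y}, (Gr A B k0 L).Adj x y →
      ∫ c, cond (Gr A B k0 L) c x y ∂env (Gr A B k0 L) nu = 40199 / 8000000 := fun h => by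
    simp only [cond_adj _ h]
    rw [integral_eval, integral_nu]
    norm_num
  have h0 : ∀ (t : Lt A B) (i j : K), ((1 : Fg A B), (inl i : Rr A K)) ≠ (1 * (lt t)⁻¹, inl j) :=
    fun t i j h => lt_ne_one t (by simpa using congrArg Prod.fst h)
  have h1 : ∀ i : K, Fintype.card K * (2 * Fintype.card B * (40199 / 8000000 : ℝ) +
      2 * Fintype.card A * (-(1 / 20000))) - 2 * Fintype.card K - om A B L * L ≤
      ∫ c, b3 k0 L c ((1 : Fg A B), inl i) ∂env (Gr A B k0 L) nu := by
    intro i
    have hp : ∀ p : Lt A B × K, Integrable (fun c => if isB p.1 then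
        cond (Gr A B k0 L) c (1, inl i) (nbr 1 i p) else
        -min (cond _ c (1, inl i) (nbr 1 i p)) (cond _ c (nbr 1 i p) (1 * (lt p.1)⁻¹, inl p.2)))
        (env (Gr A B k0 L) nu) := by
      intro p
      cases hb : isB p.1
      · exact ((hi (adj_nbr 1 i p)).inf (hi (adj_oth 1 i p hb))).neg
      · exact hi (adj_nbr 1 i p)
    simp only [b3, sub_sub]
    rw [integral_sub (integrable_finsetSum _ fun p _ => hp p)
      (integrable_const _), integral_finsetSum _ fun p _ => hp p, ← sum_isB, ← sum_p]
    simp only [integral_const, probReal_univ, smul_eq_mul, one_mul]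
    gcongr with p
    cases hb : isB p.1
    · have := int_min nu (adj_nbr (k0 := k0) (L := L) 1 i p) (adj_oth 1 i p hb) (h0 _ _ _)
      simp only [one_mul] at this
      simp only [Bool.false_eq_true, if_false]
      rw [integral_neg, this]
      exact neg_le_neg min_nu
    · simp only [if_true]
      exact (hc (adj_nbr 1 i p)).ge
  have h2 : ∀ m : A × K × K, -(1 / 20000 : ℝ) ≤
      ∫ c, b3 k0 L c ((1 : Fg A B), inr m) ∂env (Gr A B k0 L) nu := by
    intro m
    simp only [b3]
    rw [integral_neg, int_min nu (adj_mid.2 (Or.inl rfl)).symm (adj_mid.2 (Or.inr rfl))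
      (h0 _ _ _)]
    exact neg_le_neg min_nu
  rw [Fintype.sum_sum_type]
  refine le_trans (le_of_eq ?_) (add_le_add (Finset.sum_le_sum fun i _ => h1 i)
    (Finset.sum_le_sum fun m _ => h2 m))
  simp only [Finset.sum_const, Finset.card_univ, Fintype.card_prod, nsmul_eq_mul]
  push_cast
  ring

theorem speeds (hA : Fintype.card A = 10000) (hB : Fintype.card B = 1000)
    (hK : 2000 * om A B 1000 + 1 ≤ Fintype.card K) :
    ∃ vS vC : ℝ, HasSpeed (Gr A B k0 1000) (root (Fg A B) (Rr A K)) (Measure.dirac 1) vS ∧
      HasSpeed (Gr A B k0 1000) (root (Fg A B) (Rr A K)) nu vC ∧ 0 < vS ∧ vS < vC := by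
  have hL : 1 ≤ 1000 := by norm_num
  have hG : QT (Gr A B k0 1000) := qt hL
  have hK' : 2000 * (om A B 1000 : ℝ) + 1 ≤ Fintype.card K := by exact_mod_cast hK
  have hom : (0 : ℝ) ≤ om A B 1000 := Nat.cast_nonneg _
  obtain ⟨vS, hS1, hS2⟩ := hG.main (Measure.dirac 1) one_pos le_rfl (by rw [ae_dirac_eq]; simp)
  obtain ⟨vC, hC1, hC2⟩ := hG.main nu (by norm_num) (by norm_num) ae_nu
  have hone : ∀ c : (Gr A B k0 1000).edgeSet → ℝ, (∀ e, c e ∈ Icc (1 : ℝ) 1) → ∀ x (F : _ → ℝ),
      ∑ y ∈ hG.N x, cond _ c x y * F y = ∑ y ∈ hG.N x, F y := fun c hc x F =>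
    Finset.sum_congr rfl fun y hy => by
      rw [cond_adj _ (hG.mem_N.1 hy), le_antisymm (hc _).2 (hc _).1, one_mul]
  set M : ℝ := ∑ r, ((hG.N (1, r)).card : ℝ) with hM
  have hM0 : 0 ≤ M := Finset.sum_nonneg fun _ _ => Nat.cast_nonneg _
  have e1 := hS2 (fun _ => Phi1) (fun _ _ => 1) 1003 1003 (fun _ => measurable_const)
    (fun _ => measurable_const) (fun _ _ x y h => by simpa using (Phi1_lip hL h).trans (by norm_num))
    (fun _ _ r => by
      have := avg_near (F := len) zero_le_one lip_len ((1 : Fg A B), r)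
      simp only [len, inv_one, toWord_one, List.length_nil, Nat.cast_zero, sub_zero] at this
      unfold Phi1
      rw [abs_le] at this ⊢
      split_ifs <;> constructor <;> linarith)
    (fun _ _ _ => by norm_num)
    (fun c hc x => by
      rw [hone c hc]
      exact Phi1_drift hG (by rw [hB]; push_cast; linarith) x)
    (fun _ _ r x => by
      have h1 := le_dist_of_lip hG.conn Phi1 (L := 1003) (fun x y h => by
        have := (abs_le.1 (Phi1_lip hL h)).2
        push_cast at this
        linarith) (1, r) x
      have := avg_near (F := len) zero_le_one lip_len ((1 : Fg A B), r)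
      simp only [len, inv_one, toWord_one, List.length_nil, Nat.cast_zero, sub_zero] at this
      have h2 : Phi1 ((1 : Fg A B), r) ≤ 1 := by
        unfold Phi1
        rw [abs_le] at this
        split_ifs <;> linarith
      linarith)
  set s2 : ℝ := Fintype.card K * (1 / 5 * (2 * Fintype.card B + 1) +
    (2 * Fintype.card B + Fintype.card A) / (1000 : ℕ)) + om A B 1000 * (3 * (1000 : ℕ)) with hs2
  have hs20 : 0 ≤ s2 := by positivity
  have hU := UU_lip (A := A) (B := B) hL (θ := 1 / 5) (by norm_num) (by norm_num)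
  have e2 := hS2 (fun _ v => -avg (UU (1 / 5) 1000) v)
    (fun _ r => if r.isRight then 0 else -s2) (-1) (3006 + s2) (fun _ => measurable_const)
    (fun _ => measurable_const)
    (fun _ _ x y h => by
      have := avg_lip hL (by norm_num) hU h
      push_cast at this
      rw [abs_le] at this ⊢
      constructor <;> linarith)
    (fun _ _ r => by
      have := avg_near (by norm_num) hU ((1 : Fg A B), r)
      simp only [UU, pot, len, inv_one, toWord_one, List.length_nil, Nat.cast_zero, ph,
        hb_nil] at this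
      rw [abs_le] at this ⊢
      norm_num at this
      constructor <;> linarith)
    (fun _ _ r => by
      rw [abs_le]
      split_ifs <;> constructor <;> linarith)
    (fun c hc x => by
      rw [hone c hc]
      obtain ⟨x, i | m⟩ := x
      · have := UU_drift hG hL (θ := 1 / 5) (by norm_num) (by norm_num)
          (by rw [hA, hB]; norm_num) x i
        simp only [isRight_inl, Bool.false_eq_true, if_false]
        rw [neg_le, ← Finset.sum_neg_distrib]
        refine le_trans (le_of_eq (Finset.sum_congr rfl fun y _ => by ring)) this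
      · rw [sum_mid]
        simp only [avg, isRight_inr, if_true, mul_inv_rev, inv_inv]
        linarith)
    (fun _ _ r x => by
      have h1 := dist_upper (k0 := k0) hL r x
      have h2 := (abs_le.1 (avg_near (by norm_num) hU x)).1
      have h3 : (ph x.1⁻¹.toWord : ℝ) ≤ pot (1 / 5) x.1⁻¹ := by
        unfold pot
        split_ifs <;> linarith
      simp only [UU, len] at h2
      linarith)
  have e3 := hC2 (Phi3 k0 1000) (fun c r => b3 k0 1000 c (1, r)) 1
    (Fintype.card (Lt A B × K) + 2 * Fintype.card K + om A B 1000 * (1000 : ℕ) + 1 + 1002)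
    measurable_Phi3 (fun _ => measurable_b3 _)
    (fun c _ x y h => (Phi3_lip hL c h).trans (by
      have : (0 : ℝ) ≤ Fintype.card (Lt A B × K) := Nat.cast_nonneg _
      push_cast
      linarith))
    (fun c _ r => by
      have := Phi3_near c ((1 : Fg A B), r)
      simp only [inv_one, toWord_one, ps, sub_zero] at this
      have : (0 : ℝ) ≤ Fintype.card (Lt A B × K) := Nat.cast_nonneg _
      push_cast
      linarith)
    (fun c hc r => (b3_abs (by norm_num) hc _).trans (by linarith))
    (fun c hc x => by
      rw [b3_tau]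
      exact Phi3_drift hG (by norm_num) hc x)
    (fun c _ r x => by
      have h1 := dist_lower (k0 := k0) hL r x
      have h2 := (abs_le.1 (Phi3_near c x)).2
      have h3 := ps_le x.1⁻¹.toWord
      have : (0 : ℝ) ≤ Fintype.card (Lt A B × K) := Nat.cast_nonneg _
      push_cast
      split_ifs at h3 <;> linarith)
  have e4 := int_b3 (A := A) (B := B) (k0 := k0) (L := 1000)
  rw [integral_nu] at e3
  rw [integral_dirac] at e1 e2
  simp only [integral_const, probReal_univ, smul_eq_mul, mul_one, Finset.sum_const,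
    Finset.card_univ, nsmul_eq_mul, one_mul] at e1 e2
  rw [Fintype.sum_sum_type] at e2
  simp only [isRight_inl, isRight_inr, Bool.false_eq_true, if_false, if_true, Finset.sum_const,
    Finset.card_univ, nsmul_eq_mul, mul_zero, add_zero] at e2
  have hR : (1 : ℝ) ≤ Fintype.card (Rr A K) := by
    haveI : Nonempty (Rr A K) := ⟨inl k0⟩
    exact_mod_cast Fintype.card_pos
  have hpos : 0 < vS * M := by linarith
  rw [hA, hB] at e4 hs2
  push_cast at e4 hs2
  generalize (Fintype.card K : ℝ) = k at *
  generalize (om A B 1000 : ℝ) = w at *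
  refine ⟨vS, vC, ae_root hS1, ae_root hC1, pos_of_mul_pos_left hpos hM0, ?_⟩
  have hk0 : 0 ≤ k := by linarith
  have h5 : vS * M ≤ k * (k * 413 + w * 3000) := by rw [hs2] at e2; nlinarith
  have h6 : k * (k * 6 - w * 1000) ≤ vC * M * (40199 / 8000000) := by nlinarith
  have h7 : k * (w * 2000) ≤ k * k := mul_le_mul_of_nonneg_left (by linarith) hk0
  have h8 : 1 ≤ k * k := by nlinarith
  refine lt_of_mul_lt_mul_right (a := M) ?_ hM0
  nlinarith

end Pool.Agent.H426Z.RC
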